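import Pool.Agent.Run7.h613.NG.Super

/-!
# Pairs of zeros in every short interval near typical numbers
-/

set_option autoImplicit false

open Filter Topology MeasureTheory

namespace Run7.h613.NG

open H370 Pool.Agent.TH822.DZ Pool.Agent.Y796.PA

/-- ordered pairs of zeros of `F` with ordinates in `(a, b]`, with multiplicity, with difference of the ordinates times
`log T / 2π` in `[α, β]` -/
noncomputable def NPP (F : ℂ → ℂ) (T a b α β : ℝ) : ℕ :=
  ∑ᶠ s ∈ zset F a b, ∑ᶠ s' ∈ {s' : ℂ | s' ∈ zset F a b ∧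
    α ≤ (s.im - s'.im) * Real.log T / (2 * Real.pi) ∧
    (s.im - s'.im) * Real.log T / (2 * Real.pi) ≤ β}, mult F s * mult F s'

lemma NPT_eq (F : ℂ → ℂ) (T t H α β : ℝ) : NPT F T t H α β = NPP F T t (t + H) α β := rfl

/-- the condition on the pairs -/
def Cnd (T α β : ℝ) (p : ℂ × ℂ) : Prop :=
  α ≤ (p.1.im - p.2.im) * Real.log T / (2 * Real.pi) ∧ (p.1.im - p.2.im) * Real.log T / (2 * Real.pi) ≤ β

open Classical in
lemma NPP_eq {F : ℂ → ℂ} (hF : GoodL F) (T α β : ℝ) {a b : ℝ} (ha : 1 ≤ a) :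
    NPP F T a b α β = ∑ p ∈ (Zf F a b ×ˢ Zf F a b).filter (Cnd T α β), mult F p.1 * mult F p.2 := by
  have hfin : (zset F a b).Finite := zset_finite hF a b ha
  unfold NPP
  rw [finsum_Zf hF ha, Finset.sum_filter, Finset.sum_product]
  refine Finset.sum_congr rfl fun s _ => ?_
  have hfin2 : {s' : ℂ | s' ∈ zset F a b ∧ α ≤ (s.im - s'.im) * Real.log T / (2 * Real.pi) ∧
      (s.im - s'.im) * Real.log T / (2 * Real.pi) ≤ β}.Finite := hfin.subset fun _ h => h.1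
  rw [finsum_mem_eq_finite_toFinset_sum _ hfin2, ← Finset.sum_filter]
  refine Finset.sum_congr ?_ fun _ _ => rfl
  ext s'
  rw [Set.Finite.mem_toFinset, Finset.mem_filter, mem_Zf hF ha]
  rfl

/-- the number of pairs is superadditive in the interval -/
lemma NPP_super {F : ℂ → ℂ} (hF : GoodL F) (T α β : ℝ) {a b c : ℝ} (ha : 1 ≤ a) (hab : a ≤ b) (hbc : b ≤ c) :
    NPP F T a b α β + NPP F T b c α β ≤ NPP F T a c α β := by
  classical
  rw [NPP_eq hF T α β ha, NPP_eq hF T α β (ha.trans hab), NPP_eq hF T α β ha, ← Finset.sum_union]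
  · refine Finset.sum_le_sum_of_subset ?_
    intro p hp
    rw [Finset.mem_union, Finset.mem_filter, Finset.mem_filter, Finset.mem_product, Finset.mem_product, mem_Zf hF ha,
      mem_Zf hF ha, mem_Zf hF (ha.trans hab), mem_Zf hF (ha.trans hab)] at hp
    rw [Finset.mem_filter, Finset.mem_product, mem_Zf hF ha, mem_Zf hF ha]
    rcases hp with ⟨⟨⟨h1, h2, h3, h4, h5⟩, k1, k2, k3, k4, k5⟩, h⟩ | ⟨⟨⟨h1, h2, h3, h4, h5⟩, k1, k2, k3, k4, k5⟩, h⟩
    · exact ⟨⟨⟨h1, h2, h3, h4.trans hbc, h5⟩, k1, k2, k3, k4.trans hbc, k5⟩, h⟩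
    · exact ⟨⟨⟨h1, h2, hab.trans_lt h3, h4, h5⟩, k1, k2, hab.trans_lt k3, k4, k5⟩, h⟩
  · rw [Finset.disjoint_left]
    intro p hp hp'
    rw [Finset.mem_filter, Finset.mem_product, mem_Zf hF ha] at hp
    rw [Finset.mem_filter, Finset.mem_product, mem_Zf hF (ha.trans hab)] at hp'
    exact absurd hp.1.1.2.2.2.1 (not_le.2 hp'.1.1.2.2.1)

/-- the number of pairs is increasing in the window -/
lemma NPP_mono {F : ℂ → ℂ} (hF : GoodL F) {T T' α β α' β' : ℝ} {a b : ℝ} (ha : 1 ≤ a)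
    (h : ∀ p, Cnd T α β p → Cnd T' α' β' p) : NPP F T a b α β ≤ NPP F T' a b α' β' := by
  classical
  rw [NPP_eq hF T α β ha, NPP_eq hF T' α' β' ha]
  refine Finset.sum_le_sum_of_subset ?_
  intro p hp
  rw [Finset.mem_filter] at hp ⊢
  exact ⟨hp.1, h p hp.2⟩

/-- **Pairs at every distance, in EVERY short interval near typical numbers.** -/
theorem pairs_typical {F : ℂ → ℂ} (hF : GoodL F) (hB : ∀ τ : ℝ, 0 < τ → τ ≤ 1 → BZr F τ) {η η' h B : ℝ} (h0 : 0 < η)
    (h1 : η < 1) (hη' : η' < η) (hh : 0 < h) (hh1 : 2 * h < 1 + η) (hc : H295Iso.c0 h + 5 / 9 * h < 2)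
    (hBc : 1 < B * (2 - H295Iso.c0 h)) :
    ∃ s κ c' : ℝ, 0 < s ∧ s < 1 ∧ 0 < κ ∧ 0 < c' ∧ Typical s (fun T => ∀ a b : ℝ, T - T ^ (η + κ) ≤ a →
      b ≤ T + T ^ (η + κ) → T ^ η ≤ b - a → ∀ α β : ℝ, 0 ≤ α → α + B ≤ β → β ≤ T ^ η' →
        c' * ((β - α) * ((b - a) * Real.log T)) ≤ (NPP F T a b α β : ℝ)) := by
  -- the parameters
  have hc0 : H295Iso.c0 h < 2 := by linarith
  obtain ⟨B', hB'1, hB'2⟩ : ∃ B' : ℝ, B' < B ∧ 1 < B' * (2 - H295Iso.c0 h) := by
    refine ⟨(B + 1 / (2 - H295Iso.c0 h)) / 2, ?_, ?_⟩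
    · have : 1 / (2 - H295Iso.c0 h) < B := by
        rw [div_lt_iff₀ (by linarith)]
        exact hBc
      linarith
    · have e : (B + 1 / (2 - H295Iso.c0 h)) / 2 * (2 - H295Iso.c0 h) = (B * (2 - H295Iso.c0 h) + 1) / 2 := by
        have : 2 - H295Iso.c0 h ≠ 0 := by linarith
        field_simp
      rw [e]
      linarith
  have hB'0 : 0 < B' := by
    by_contra hcon
    push Not at hcon
    nlinarith
  obtain ⟨η₁, hη₁, e1, e2, e3⟩ : ∃ η₁ : ℝ, η₁ < η ∧ 0 < η₁ ∧ 2 * h ≤ 1 + η₁ ∧ η' ≤ η₁ := by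
    refine ⟨max (max (2 * h - 1) η') (η / 2), ?_, ?_, ?_, ?_⟩
    · exact max_lt (max_lt (by linarith) hη') (by linarith)
    · exact lt_of_lt_of_le (by linarith) (le_max_right _ _)
    · have : 2 * h - 1 ≤ max (max (2 * h - 1) η') (η / 2) := (le_max_left _ _).trans (le_max_left _ _)
      linarith
    · exact (le_max_right _ _).trans (le_max_left _ _)
  obtain ⟨κ₀, hκ₀, c₁, hc₁, haa⟩ := win4_aa hF hB e1 (hη₁.trans h1) hh e2 hc hB'2
  obtain ⟨s, κ, hs0, hs1, hκ, hκ1, hT⟩ := every_of_aa (X := ℝ × ℝ) e1 hη₁ h1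
    (fun τ x a b => (NPP F τ a b x.1 x.2 : ℝ) / |x.2 - x.1|)
    (fun τ => {x | 0 ≤ x.1 ∧ x.2 ≤ κ₀ * (τ ^ η₁ * Real.log τ) ∧ B' ≤ x.2 - x.1})
    (fun τ x a b => by positivity)
    (fun τ x a b c _ ha hab hbc => by
      rw [← add_div]
      refine div_le_div_of_nonneg_right ?_ (abs_nonneg _)
      exact_mod_cast NPP_super hF τ x.1 x.2 ha hab hbc)
    hc₁.le
    (by
      refine aa_mono (T1 := 4) haa ?_
      intro T hT4 t ht H hH1 hP x hx
      obtain ⟨k1, k2, k3⟩ := hx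
      have hx0 : 0 < x.2 - x.1 := by linarith
      have hlog : 0 < Real.log T := Real.log_pos (by linarith)
      have k4 := hP x.1 x.2 k1 (k2.trans (mul_le_mul_of_nonneg_left
        (mul_le_mul_of_nonneg_right hH1 hlog.le) hκ₀.le)) k3
      rw [NPT_eq] at k4
      rw [abs_of_pos hx0, le_div_iff₀ hx0]
      refine le_trans (le_of_eq ?_) k4
      ring)
  refine ⟨s, κ, c₁ / 8, hs0, hs1, hκ, by positivity, ?_⟩
  -- largeness
  have ev1 : ∀ᶠ T : ℝ in atTop, 2 * (2 : ℝ) ^ |η₁| ≤ κ₀ * Real.log T := by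
    have : Tendsto (fun T : ℝ => κ₀ * Real.log T) atTop atTop := Real.tendsto_log_atTop.const_mul_atTop hκ₀
    exact this.eventually_ge_atTop _
  have ev2 : ∀ᶠ T : ℝ in atTop, Real.log 2 / Real.log T ≤ (B - B') / (|B| + 1) := by
    have : Tendsto (fun T : ℝ => Real.log 2 / Real.log T) atTop (𝓝 0) :=
      Real.tendsto_log_atTop.const_div_atTop _
    exact this.eventually (eventually_le_nhds (by
      have : 0 < B - B' := by linarith
      positivity))
  obtain ⟨T₀, hT₀⟩ := eventually_atTop.1 (ev1.and (ev2.and (eventually_ge_atTop (16 : ℝ))))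
  refine (hT (c₁ / 2) (by positivity)).mono_large T₀ ?_
  rintro T hTT ⟨τ, hτ4, hτ1, hτ2, hall⟩ a b ha hb hab α β hα hαβ hβ
  obtain ⟨g1, g2, g3⟩ := hT₀ T hTT
  have hpi := Real.pi_pos
  have hTW : 0 < T ^ (η + κ) := Real.rpow_pos_of_pos (by linarith) _
  have hτT : τ ≤ T := by linarith
  have hT2 : T ≤ 2 * τ := by linarith
  have hτ0 : 0 < τ := by linarith
  have hlτ : 0 < Real.log τ := Real.log_pos (by linarith)
  have hlT : 0 < Real.log T := Real.log_pos (by linarith)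
  have hl1 : Real.log τ ≤ Real.log T := Real.log_le_log hτ0 hτT
  have hl2 : Real.log T ≤ Real.log 2 + Real.log τ := by
    rw [← Real.log_mul (by norm_num) hτ0.ne']
    exact Real.log_le_log (by linarith) hT2
  have hl3 : Real.log T ≤ 2 * Real.log τ := by
    have : Real.log 2 ≤ Real.log τ := Real.log_le_log (by norm_num) (by linarith)
    linarith
  obtain ⟨ρ, hρ⟩ : ∃ ρ : ℝ, ρ = Real.log τ / Real.log T := ⟨_, rfl⟩
  have hρ0 : 0 < ρ := by rw [hρ]; positivity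
  have hρ1 : ρ ≤ 1 := by rw [hρ, div_le_one hlT]; exact hl1
  have hρ2 : 1 / 2 ≤ ρ := by
    rw [hρ, le_div_iff₀ hlT]
    linarith
  have hρ3 : 1 - Real.log 2 / Real.log T ≤ ρ := by
    rw [hρ, sub_le_iff_le_add, ← add_div, le_div_iff₀ hlT]
    linarith
  have hab0 : 0 < b - a := lt_of_lt_of_le (Real.rpow_pos_of_pos (by linarith) _) hab
  have hB0 : 0 < B := by linarith
  have hβα : 0 < β - α := by linarith
  have ha1 : 1 ≤ a := by linarith
  -- the window at the scale `τ`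
  have hmem : ((ρ * α, ρ * β) : ℝ × ℝ) ∈ {x : ℝ × ℝ | 0 ≤ x.1 ∧ x.2 ≤ κ₀ * (τ ^ η₁ * Real.log τ) ∧ B' ≤ x.2 - x.1} := by
    refine ⟨by positivity, ?_, ?_⟩
    · show ρ * β ≤ κ₀ * (τ ^ η₁ * Real.log τ)
      have k1 : ρ * β ≤ T ^ η₁ := by
        have hβ0 : 0 ≤ β := by linarith
        calc ρ * β ≤ 1 * β := mul_le_mul_of_nonneg_right hρ1 hβ0
          _ = β := one_mul _
          _ ≤ T ^ η' := hβ
          _ ≤ T ^ η₁ := Real.rpow_le_rpow_of_exponent_le (by linarith) e3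
      have k2 : T ^ η₁ ≤ 2 ^ η₁ * τ ^ η₁ := by
        rw [← Real.mul_rpow (by norm_num) hτ0.le]
        exact Real.rpow_le_rpow (by linarith) hT2 e1.le
      have k3 : (2 : ℝ) ^ η₁ ≤ κ₀ * Real.log τ := by
        rw [abs_of_pos e1] at g1
        nlinarith
      have k4 : 0 < τ ^ η₁ := Real.rpow_pos_of_pos hτ0 _
      calc ρ * β ≤ 2 ^ η₁ * τ ^ η₁ := k1.trans k2
        _ ≤ κ₀ * Real.log τ * τ ^ η₁ := mul_le_mul_of_nonneg_right k3 k4.le
        _ = κ₀ * (τ ^ η₁ * Real.log τ) := by ring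
    · show B' ≤ ρ * β - ρ * α
      have k1 : (1 - ρ) * B ≤ B - B' := by
        have k2 : 1 - ρ ≤ (B - B') / (|B| + 1) := by linarith
        calc (1 - ρ) * B ≤ (B - B') / (|B| + 1) * B := mul_le_mul_of_nonneg_right k2 hB0.le
          _ ≤ B - B' := by
            rw [div_mul_eq_mul_div, div_le_iff₀ (by positivity), abs_of_pos hB0]
            nlinarith
      nlinarith
  have key := hall _ hmem a b ha hb hab
  have hwin : ρ * β - ρ * α = ρ * (β - α) := by ring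
  simp only [hwin] at key
  have hρβ : 0 < ρ * (β - α) := by positivity
  rw [abs_of_pos hρβ, le_div_iff₀ hρβ] at key
  have hmono : (NPP F τ a b (ρ * α) (ρ * β) : ℝ) ≤ NPP F T a b α β := by
    have : NPP F τ a b (ρ * α) (ρ * β) ≤ NPP F T a b α β := by
      refine NPP_mono hF ha1 fun p hp => ?_
      obtain ⟨p1, p2⟩ := hp
      have e : (p.1.im - p.2.im) * Real.log τ / (2 * Real.pi) =
          ρ * ((p.1.im - p.2.im) * Real.log T / (2 * Real.pi)) := by
        rw [hρ]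
        field_simp
      rw [e] at p1 p2
      exact ⟨le_of_mul_le_mul_left p1 hρ0, le_of_mul_le_mul_left p2 hρ0⟩
    exact_mod_cast this
  refine le_trans ?_ (key.trans hmono)
  have k1 : c₁ / 8 * ((β - α) * ((b - a) * Real.log T)) = c₁ / 4 * ((b - a) * (Real.log T / 2)) * (β - α) := by ring
  have k2 : (c₁ - c₁ / 2) * ((b - a) * Real.log τ) * (ρ * (β - α)) =
      c₁ / 2 * ρ * ((b - a) * Real.log τ) * (β - α) := by ring
  rw [k1, k2]
  refine mul_le_mul_of_nonneg_right ?_ hβα.le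
  have k3 : c₁ / 4 ≤ c₁ / 2 * ρ := by nlinarith
  have k4 : (b - a) * (Real.log T / 2) ≤ (b - a) * Real.log τ := mul_le_mul_of_nonneg_left (by linarith) hab0.le
  exact mul_le_mul k3 k4 (by positivity) (by positivity)

end Run7.h613.NG
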