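import Pool.Agent.Run7.h613.NG.Core
import Mathlib

/-!
# Families indexed by the Dirichlet characters
-/

set_option autoImplicit false

open Filter Topology MeasureTheory

namespace Run7.h613.NG


instance countable_chars : Countable (Σ n : ℕ, DirichletCharacter ℂ (n + 1)) := by
  haveI : ∀ n : ℕ, Countable (DirichletCharacter ℂ (n + 1)) := fun n => by
    haveI : Finite (DirichletCharacter ℂ (n + 1)) := inferInstance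
    exact Finite.to_countable
  infer_instance

/-- A property `P χ η r κ T` of the primitive characters `χ` of all moduli, `η` in a countable set, is typical for every
`r < R η` with some `κ > 0`; then it holds for all the characters, all `η` and all `r` at once near the values of generic
linear forms, near powers and at the denominators of good approximations. -/
theorem chars_all {P : (q : ℕ) → DirichletCharacter ℂ q → ℝ → ℝ → ℝ → ℝ → Prop} {R : ℝ → ℝ}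
    (hmono : ∀ q χ η r r' κ T, r ≤ r' → P q χ η r' κ T → P q χ η r κ T)
    (h : ∀ (q : ℕ) [NeZero q] (χ : DirichletCharacter ℂ q), χ.IsPrimitive → ∀ η ε : ℝ, 0 < η → η < 1 → 0 < ε →
      ∃ s κ : ℝ, 0 < s ∧ s < 1 ∧ 0 < κ ∧ Typical s (P q χ η (R η - ε) κ)) (U : Set ℝ) (hU : U.Countable) :
    (∀ (k : ℕ) (J : Type) (v : J → Fin k → ℝ), 1 ≤ k → Fam v 0 → ∀ᵐ α : Fin k → ℝ,
      ∀ (q : ℕ) [NeZero q] (χ : DirichletCharacter ℂ q), χ.IsPrimitive → ∀ η ∈ U, 0 < η → η < 1 → ∀ ε : ℝ, 0 < ε →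
        ∃ κ : ℝ, 0 < κ ∧ ∀ w : ℝ, {j | ¬ ∀ T : ℝ, 0 < T → |T - ∑ l, α l * v j l| ≤ w → P q χ η (R η - ε) κ T}.Finite) ∧
    (∀ (ν : ℕ → ℝ) (β : ℝ), Fast ν → 0 < β → ∀ᵐ x : ℝ, 1 < x →
      ∀ (q : ℕ) [NeZero q] (χ : DirichletCharacter ℂ q), χ.IsPrimitive → ∀ η ∈ U, 0 < η → η < 1 → ∀ ε : ℝ, 0 < ε →
        ∃ κ : ℝ, 0 < κ ∧ ∀ᶠ n : ℕ in atTop, P q χ η (R η - ε) κ (β * x ^ ν n)) ∧
    ∀ G : ℕ → ℝ, Heights G →
      (∀ k : ℕ, 1 ≤ k → ∀ᵐ α : Fin k → ℝ,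
        ∀ (q : ℕ) [NeZero q] (χ : DirichletCharacter ℂ q), χ.IsPrimitive → ∀ η ∈ U, 0 < η → η < 1 → ∀ ε : ℝ, 0 < ε →
          ∃ κ : ℝ, 0 < κ ∧ ∀ c : ℝ, {n : ℕ | Approx c (1 / k) α n ∧ ¬ P q χ η (R η - ε) κ (G n)}.Finite) ∧
      ∀ᵐ ξ : ℝ, ∀ (q : ℕ) [NeZero q] (χ : DirichletCharacter ℂ q), χ.IsPrimitive → ∀ η ∈ U, 0 < η → η < 1 →
        ∀ ε : ℝ, 0 < ε → ∃ κ : ℝ, 0 < κ ∧ ∀ᶠ n : ℕ in atTop, P q χ η (R η - ε) κ (G (ξ.convergent n).den) := by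
  classical
  haveI : Countable U := hU.to_subtype
  have hch : ∀ i : (Σ n : ℕ, DirichletCharacter ℂ (n + 1)) × U × ℕ, ∃ s κ : ℝ, 0 < s ∧ s < 1 ∧ 0 < κ ∧
      Typical s (fun T => i.1.2.IsPrimitive → 0 < (i.2.1 : ℝ) → (i.2.1 : ℝ) < 1 →
        P (i.1.1 + 1) i.1.2 i.2.1 (R i.2.1 - 1 / ((i.2.2 : ℝ) + 1)) κ T) := by
    rintro ⟨⟨n, χ⟩, η, m⟩
    by_cases hc : χ.IsPrimitive ∧ 0 < (η : ℝ) ∧ (η : ℝ) < 1
    · obtain ⟨s, κ, h1, h2, h3, h4⟩ := h (n + 1) χ hc.1 η (1 / ((m : ℝ) + 1)) hc.2.1 hc.2.2 (by positivity)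
      exact ⟨s, κ, h1, h2, h3, h4.mono fun T hT _ _ _ => hT⟩
    · exact ⟨1 / 2, 1, by norm_num, by norm_num, one_pos, typical_of_forall fun T h1 h2 h3 => absurd ⟨h1, h2, h3⟩ hc⟩
  choose s κ hs0 hs1 hκ hQ using hch
  obtain ⟨A1, A2, A3⟩ := ae_all (ι := (Σ n : ℕ, DirichletCharacter ℂ (n + 1)) × U × ℕ)
    (fun i T => i.1.2.IsPrimitive → 0 < (i.2.1 : ℝ) → (i.2.1 : ℝ) < 1 →
        P (i.1.1 + 1) i.1.2 i.2.1 (R i.2.1 - 1 / ((i.2.2 : ℝ) + 1)) (κ i) T)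
    (fun i => ⟨s i, (hs0 i).le, hs1 i, hQ i⟩)
  -- the index of a triple
  have idx : ∀ (q : ℕ) [NeZero q] (χ : DirichletCharacter ℂ q), χ.IsPrimitive → ∀ η ∈ U, 0 < η → η < 1 →
      ∀ ε : ℝ, 0 < ε → ∃ i : (Σ n : ℕ, DirichletCharacter ℂ (n + 1)) × U × ℕ,
        ∀ T : ℝ, (i.1.2.IsPrimitive → 0 < (i.2.1 : ℝ) → (i.2.1 : ℝ) < 1 →
          P (i.1.1 + 1) i.1.2 i.2.1 (R i.2.1 - 1 / ((i.2.2 : ℝ) + 1)) (κ i) T) → P q χ η (R η - ε) (κ i) T := by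
    intro q _ χ hχ η hη h0 h1 ε hε
    obtain ⟨n, rfl⟩ := Nat.exists_eq_succ_of_ne_zero (NeZero.ne q)
    obtain ⟨m, hm⟩ := exists_nat_one_div_lt hε
    refine ⟨(⟨n, χ⟩, ⟨η, hη⟩, m), fun T hT => ?_⟩
    exact hmono _ _ _ _ _ _ _ (by linarith) (hT hχ h0 h1)
  refine ⟨fun k J v hk hv => ?_, fun ν β hν hβ => ?_, fun G hG => ⟨fun k hk => ?_, ?_⟩⟩
  · filter_upwards [A1 k J v hk hv] with α hα q _ χ hχ η hη h0 h1 ε hε
    obtain ⟨i, hi⟩ := idx q χ hχ η hη h0 h1 ε hε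
    refine ⟨κ i, hκ i, fun w => (hα i w).subset ?_⟩
    intro j hj hcon
    exact hj fun T hT hTw => hi T (hcon T hT hTw)
  · filter_upwards [A2 ν β hν hβ] with x hx hx1 q _ χ hχ η hη h0 h1 ε hε
    obtain ⟨i, hi⟩ := idx q χ hχ η hη h0 h1 ε hε
    refine ⟨κ i, hκ i, ?_⟩
    filter_upwards [hx hx1 i] with n hn
    exact hi _ hn
  · filter_upwards [(A3 G hG).1 k hk] with α hα q _ χ hχ η hη h0 h1 ε hε
    obtain ⟨i, hi⟩ := idx q χ hχ η hη h0 h1 ε hε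
    refine ⟨κ i, hκ i, fun c => (hα i c).subset ?_⟩
    rintro n ⟨hn1, hn2⟩
    exact ⟨hn1, fun hcon => hn2 (hi _ hcon)⟩
  · filter_upwards [(A3 G hG).2] with ξ hξ q _ χ hχ η hη h0 h1 ε hε
    obtain ⟨i, hi⟩ := idx q χ hχ η hη h0 h1 ε hε
    refine ⟨κ i, hκ i, ?_⟩
    filter_upwards [hξ i] with n hn
    exact hi _ hn

end Run7.h613.NG
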