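import Mathlib

/-!
# Typical properties of large real numbers: definitions
-/

set_option autoImplicit false

open Filter MeasureTheory

namespace Run7.h613.NG

/-- up to `X` the set `S` has at most `C X ^ (s + ε)` elements, for every `ε > 0` -/
def Thin (S : Set ℕ) (s : ℝ) : Prop :=
  ∀ ε : ℝ, 0 < ε → ∃ C : ℝ, ∀ X : ℕ, 1 ≤ X →
    ∃ F : Finset ℕ, (∀ m : ℕ, m ≤ X → m ∈ S → m ∈ F) ∧ (F.card : ℝ) ≤ C * (X : ℝ) ^ (s + ε)

/-- For some set `S` of natural numbers with at most `C X ^ (s + ε)` elements up to `X`, for every `ε > 0`, the property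
`Q T` holds for all large real numbers `T` with integral part outside `S`. -/
def Typical (s : ℝ) (Q : ℝ → Prop) : Prop :=
  ∃ (S : Set ℕ) (T₁ : ℝ), Thin S s ∧ ∀ T : ℝ, T₁ ≤ T → ⌊T⌋₊ ∉ S → Q T

/-- a family of vectors in `ℝ^k`, at most `C X ^ (τ + ε)` of which have norm at most `X`, for every `ε > 0` -/
def Fam {k : ℕ} {J : Type} (v : J → Fin k → ℝ) (τ : ℝ) : Prop :=
  ∀ ε : ℝ, 0 < ε → ∃ C : ℝ, ∀ X : ℝ, 1 ≤ X →
    {j | ‖v j‖ ≤ X}.Finite ∧ (({j | ‖v j‖ ≤ X}.ncard : ℕ) : ℝ) ≤ C * X ^ (τ + ε)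

/-- `ν n / log n → ∞`, for example `ν n = n`, `ν n = a ^ n` (`a > 1`) or `ν n = n !` -/
def Fast (ν : ℕ → ℝ) : Prop := Tendsto (fun n : ℕ => ν n / Real.log n) atTop atTop

/-- heights: the steps of `G` are at least a positive constant and `G v = O(v)`, for example `G v = a v + b`, `a > 0` -/
def Heights (G : ℕ → ℝ) : Prop :=
  ∃ a C : ℝ, 0 < a ∧ (∀ v : ℕ, 1 ≤ v → a ≤ G (v + 1) - G v) ∧ ∀ v : ℕ, 1 ≤ v → G v ≤ C * v

/-- `|q α_i - p_i| ≤ c q ^ (-τ)` for all `i` and some integers `p_i` -/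
def Approx {k : ℕ} (c τ : ℝ) (α : Fin k → ℝ) (q : ℕ) : Prop :=
  1 ≤ q ∧ ∃ p : Fin k → ℤ, ∀ i, |(q : ℝ) * α i - (p i : ℝ)| ≤ c * (q : ℝ) ^ (-τ)

/-- The property `Q` of large real numbers holds (1) near the values of generic linear forms: for every family `v` of vectors
in `ℝ^k` of which `O(X ^ δ)` have norm at most `X`, for every `δ > 0`, for almost all `α`, for all but finitely many `j`, for
all `T` within a bounded distance of `∑ α_l v_(j,l)`; (2) at `β x ^ (ν n)` for almost all `x > 1`, if `ν n / log n → ∞`; (3) at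
`G q` for all but finitely many `q` with `|q α_l - p_l| ≤ c q ^ (-1/k)` for some integers `p_l`, for almost all `α` in `ℝ^k`,
and for all but finitely many of the denominators `q` of the convergents of almost all real numbers. -/
def Generic (Q : ℝ → Prop) : Prop :=
  (∀ (k : ℕ) (J : Type) (v : J → Fin k → ℝ), 1 ≤ k → Fam v 0 → ∀ᵐ α : Fin k → ℝ, ∀ w : ℝ,
    {j | ¬ ∀ T : ℝ, 0 < T → |T - ∑ l, α l * v j l| ≤ w → Q T}.Finite) ∧
  (∀ (ν : ℕ → ℝ) (β : ℝ), Fast ν → 0 < β → ∀ᵐ x : ℝ, 1 < x → ∀ᶠ n : ℕ in atTop, Q (β * x ^ ν n)) ∧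
  ∀ G : ℕ → ℝ, Heights G →
    (∀ k : ℕ, 1 ≤ k → ∀ᵐ α : Fin k → ℝ, ∀ c : ℝ, {q : ℕ | Approx c (1 / k) α q ∧ ¬ Q (G q)}.Finite) ∧
    ∀ᵐ ξ : ℝ, ∀ᶠ n : ℕ in atTop, Q (G (ξ.convergent n).den)

end Run7.h613.NG
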