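import Pool.Agent.N251.LF.SIPoint
import Pool.Agent.N251.LF.RealPoint
import Pool.Agent.N593.DZ.Fin
import Pool.Agent.V11001.KM.Nat
import Pool.Agent.Run7.h613.NG.Defs

/-!
# Properties of large real numbers that fail on a thin set only

A property `Q` of real numbers is *typical of exponent `s`* if it fails, for large numbers, only for numbers whose integral
part is in a set with `O(X ^ (s + ε))` elements up to `X`, for every `ε > 0`. Typical properties hold near the values of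
generic linear forms, near the powers of almost all numbers and at the heights `G q`, `q` a denominator of a good
approximation, for all countable families of properties at once.
-/

set_option autoImplicit false

open Filter Topology MeasureTheory Finset

namespace Run7.h613.NG

open Pool.Agent.N251.LF (linear_real)
open Pool.Agent.N220.CF (RarelyMet rarely_set)
open Pool.Agent.V11001.KM (powers large_of_near)

lemma Thin.mono {P : Set ℕ} {s s' : ℝ} (h : s ≤ s') (hP : Thin P s) : Thin P s' :=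
  Pool.Agent.N251.LF.SIP.Thin.mono h hP

lemma Typical.mono {s : ℝ} {Q Q' : ℝ → Prop} (h : ∀ T, Q T → Q' T) (hQ : Typical s Q) : Typical s Q' := by
  obtain ⟨S, T₁, h1, h2⟩ := hQ
  exact ⟨S, T₁, h1, fun T hT hS => h T (h2 T hT hS)⟩

lemma Typical.mono_large {s : ℝ} {Q Q' : ℝ → Prop} (T₀ : ℝ) (h : ∀ T, T₀ ≤ T → Q T → Q' T) (hQ : Typical s Q) :
    Typical s Q' := by
  obtain ⟨S, T₁, h1, h2⟩ := hQ
  exact ⟨S, max T₀ T₁, h1, fun T hT hS => h T ((le_max_left _ _).trans hT) (h2 T ((le_max_right _ _).trans hT) hS)⟩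

lemma Typical.mono_exp {s s' : ℝ} {Q : ℝ → Prop} (h : s ≤ s') (hQ : Typical s Q) : Typical s' Q := by
  obtain ⟨S, T₁, h1, h2⟩ := hQ
  exact ⟨S, T₁, h1.mono h, h2⟩

lemma typical_of_forall {s : ℝ} {Q : ℝ → Prop} (h : ∀ T, Q T) : Typical s Q := by
  refine ⟨∅, 0, fun ε _ => ⟨0, fun X _ => ⟨∅, fun m _ hm => absurd hm (Set.notMem_empty m), ?_⟩⟩, fun T _ _ => h T⟩
  simp

lemma gap_lin2 {G : ℕ → ℝ} {a : ℝ} (h : ∀ v : ℕ, 1 ≤ v → a ≤ G (v + 1) - G v) {u v : ℕ} (hu : 1 ≤ u) (huv : u ≤ v) :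
    a * ((v : ℝ) - u) ≤ G v - G u := by
  induction v, huv using Nat.le_induction with
  | base => simp
  | succ n hn ih =>
    have := h n (by omega)
    push_cast
    linarith

/-- **Near the values of generic linear forms.** -/
theorem typical_linear {s : ℝ} {Q : ℝ → Prop} (hs : 0 ≤ s) (h : Typical s Q) {ι : Type} {k : ℕ} (v : ι → Fin k → ℝ)
    {τ θ : ℝ} (hτ : 0 ≤ τ) (hθ0 : 0 ≤ θ) (hθ : θ < 1) (hv : Fam v τ) :
    ∃ E : Set (Fin k → ℝ), dimH E ≤ ENNReal.ofReal ((k : ℝ) - 1 + (s + τ) / (1 - θ)) ∧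
      ∀ α, α ∉ E → ∀ w : ℝ, {i | ¬ ∀ T : ℝ, 0 < T → |T - ∑ j, α j * v i j| ≤ w * ‖v i‖ ^ θ → Q T}.Finite := by
  obtain ⟨S, T₁, hS, h⟩ := h
  obtain ⟨E, hE, hE2⟩ := linear_real S T₁ v hs hτ hθ0 hθ hv hS
  refine ⟨E, hE, fun α hα w => (hE2 α hα w).subset ?_⟩
  intro i hi hcon
  exact hi fun T hT hTw => h T (hcon T hT hTw).1 (hcon T hT hTw).2

/-- **At the heights `G q`, `q` the denominator of a good approximation.** -/
theorem typical_rarely {s : ℝ} {Q : ℝ → Prop} (hs : 0 ≤ s) (hs1 : s < 1) (h : Typical s Q) {G : ℕ → ℝ}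
    (hG : Heights G) : RarelyMet s {q : ℕ | ¬ Q (G q)} := by
  classical
  obtain ⟨S, T₁, hS, h⟩ := h
  obtain ⟨a, C₁, ha, hstep, hlin⟩ := hG
  refine rarely_set _ hs hs1 fun ε hε => ?_
  obtain ⟨C, hC⟩ := hS ε hε
  obtain ⟨q₀, hq₀⟩ := Pool.Agent.N593.DZ.large ha hstep (max T₁ 0)
  obtain ⟨K, hK⟩ : ∃ K : ℕ, K = ⌊1 / a⌋₊ + 1 := ⟨_, rfl⟩
  obtain ⟨B, hB⟩ : ∃ B : ℕ, B = ⌈|C₁|⌉₊ + 1 := ⟨_, rfl⟩
  have hB1 : (1 : ℝ) ≤ B := by
    rw [hB]; push_cast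
    have : (0 : ℝ) ≤ ⌈|C₁|⌉₊ := Nat.cast_nonneg _
    linarith
  refine ⟨K * (|C| * (B : ℝ) ^ (s + ε)) + q₀, fun X hX => ?_⟩
  have hX1 : (1 : ℝ) ≤ X := by exact_mod_cast hX
  have hBX : 1 ≤ B * X := by
    have : 1 ≤ B := by exact_mod_cast hB1
    nlinarith
  obtain ⟨F, hF1, hF2⟩ := hC (B * X) hBX
  -- the exceptional `q`
  obtain ⟨A, hA⟩ : ∃ A : Finset ℕ, A = (Icc 1 X).filter (fun q => q₀ ≤ q ∧ ⌊G q⌋₊ ∈ S) := ⟨_, rfl⟩
  have hmaps : ∀ q ∈ A, ⌊G q⌋₊ ∈ F := by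
    intro q hq
    rw [hA, mem_filter, mem_Icc] at hq
    obtain ⟨⟨hq1, hq2⟩, hq3, hq4⟩ := hq
    refine hF1 _ ?_ hq4
    have hG0 : 0 ≤ G q := (le_max_right _ _).trans (hq₀ q hq3)
    have hqX : (q : ℝ) ≤ X := by exact_mod_cast hq2
    have e1 : G q ≤ (B : ℝ) * X := by
      have hC1 : C₁ ≤ B := by
        rw [hB]; push_cast
        linarith [le_abs_self C₁, Nat.le_ceil |C₁|]
      calc G q ≤ C₁ * q := hlin q hq1
        _ ≤ B * q := mul_le_mul_of_nonneg_right hC1 (Nat.cast_nonneg _)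
        _ ≤ B * X := mul_le_mul_of_nonneg_left hqX (by linarith)
    have : ⌊G q⌋₊ ≤ ⌊((B * X : ℕ) : ℝ)⌋₊ := Nat.floor_mono (by push_cast; exact e1)
    rwa [Nat.floor_natCast] at this
  have hfib : ∀ m ∈ F, (A.filter (fun q => ⌊G q⌋₊ = m)).card ≤ K := by
    intro m _
    rcases (A.filter (fun q => ⌊G q⌋₊ = m)).eq_empty_or_nonempty with he | hne
    · rw [he]; simp
    obtain ⟨u, hu⟩ : ∃ u : ℕ, u = (A.filter (fun q => ⌊G q⌋₊ = m)).min' hne := ⟨_, rfl⟩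
    have hu1 : u ∈ A.filter (fun q => ⌊G q⌋₊ = m) := hu ▸ Finset.min'_mem _ _
    have hsub : A.filter (fun q => ⌊G q⌋₊ = m) ⊆ Icc u (u + ⌊1 / a⌋₊) := by
      intro q hq
      have huq : u ≤ q := hu ▸ Finset.min'_le _ _ hq
      rw [mem_filter, hA, mem_filter, mem_Icc] at hq hu1
      rw [mem_Icc]
      refine ⟨huq, ?_⟩
      have hG0 : 0 ≤ G q := (le_max_right _ _).trans (hq₀ q hq.1.2.1)
      have hG1 : 0 ≤ G u := (le_max_right _ _).trans (hq₀ u hu1.1.2.1)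
      have k1 := Nat.floor_le hG1
      have k2 := Nat.lt_floor_add_one (G q)
      rw [hq.2] at k2
      rw [hu1.2] at k1
      have k3 := gap_lin2 hstep hu1.1.1.1 huq
      have k4 : ((q : ℝ) - u) ≤ 1 / a := by
        rw [le_div_iff₀ ha]
        linarith
      have k5 : q - u ≤ ⌊1 / a⌋₊ := by
        apply Nat.le_floor
        rw [Nat.cast_sub huq]
        exact k4
      omega
    calc (A.filter (fun q => ⌊G q⌋₊ = m)).card ≤ (Icc u (u + ⌊1 / a⌋₊)).card := card_le_card hsub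
      _ = K := by rw [Nat.card_Icc, hK]; omega
  have hAc : A.card ≤ K * F.card := by
    have := Finset.card_le_mul_card_image_of_maps_to (s := A) (t := F) (f := fun q => ⌊G q⌋₊) hmaps K hfib
    exact this
  have hcard : ((Icc 1 X).filter (fun v => v ∈ {q : ℕ | ¬ Q (G q)})).card ≤ A.card + q₀ := by
    have hsub : (Icc 1 X).filter (fun v => v ∈ {q : ℕ | ¬ Q (G q)}) ⊆ A ∪ range q₀ := by
      intro q hq
      rw [mem_filter, mem_Icc] at hq
      rw [mem_union, mem_range]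
      by_cases hlt : q < q₀
      · exact Or.inr hlt
      left
      push Not at hlt
      rw [hA, mem_filter, mem_Icc]
      refine ⟨hq.1, hlt, ?_⟩
      by_contra hcon
      exact hq.2 (h (G q) ((le_max_left _ _).trans (hq₀ q hlt)) hcon)
    calc _ ≤ (A ∪ range q₀).card := card_le_card hsub
      _ ≤ A.card + (range q₀).card := card_union_le _ _
      _ = A.card + q₀ := by rw [card_range]
  have h1 : (((Icc 1 X).filter (fun v => v ∈ {q : ℕ | ¬ Q (G q)})).card : ℝ) ≤ K * F.card + q₀ := by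
    exact_mod_cast hcard.trans (Nat.add_le_add_right hAc _)
  have h2 : (1 : ℝ) ≤ (X : ℝ) ^ (s + ε) := Real.one_le_rpow hX1 (by linarith)
  have h3 : (F.card : ℝ) ≤ |C| * (B : ℝ) ^ (s + ε) * (X : ℝ) ^ (s + ε) := by
    calc (F.card : ℝ) ≤ C * ((B * X : ℕ) : ℝ) ^ (s + ε) := hF2
      _ ≤ |C| * ((B * X : ℕ) : ℝ) ^ (s + ε) := mul_le_mul_of_nonneg_right (le_abs_self C) (by positivity)
      _ = |C| * (B : ℝ) ^ (s + ε) * (X : ℝ) ^ (s + ε) := by
          push_cast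
          rw [Real.mul_rpow (by linarith) (by linarith)]
          ring
  have h4 : (K : ℝ) * F.card ≤ K * (|C| * (B : ℝ) ^ (s + ε) * (X : ℝ) ^ (s + ε)) :=
    mul_le_mul_of_nonneg_left h3 (Nat.cast_nonneg _)
  have h5 : (q₀ : ℝ) ≤ q₀ * (X : ℝ) ^ (s + ε) := by
    have : (0 : ℝ) ≤ q₀ := Nat.cast_nonneg _
    nlinarith
  have h6 : (((Icc 1 X).filter (fun v => v ∈ {q : ℕ | ¬ Q (G q)})).card : ℝ) ≤
      (K * (|C| * (B : ℝ) ^ (s + ε)) + q₀) * (X : ℝ) ^ (s + ε) := by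
    calc (((Icc 1 X).filter (fun v => v ∈ {q : ℕ | ¬ Q (G q)})).card : ℝ) ≤ K * F.card + q₀ := h1
      _ ≤ K * (|C| * (B : ℝ) ^ (s + ε) * (X : ℝ) ^ (s + ε)) + q₀ * (X : ℝ) ^ (s + ε) := add_le_add h4 h5
      _ = _ := by ring
  refine le_trans (le_of_eq ?_) h6
  congr!

/-- **Near the powers of almost all real numbers.** -/
theorem typical_powers {s : ℝ} {Q : ℝ → Prop} (hs : 0 ≤ s) (h : Typical s Q) {ν : ℕ → ℝ} (hν : Fast ν)
    {θ β : ℝ} (hβ : 0 < β) (hθ0 : 0 ≤ θ) (hθ : θ < 1) :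
    ∃ E : Set ℝ, dimH E ≤ ENNReal.ofReal (s / (1 - θ)) ∧ ∀ x : ℝ, 1 < x → x ∉ E →
      ∃ n₀ : ℕ, ∀ n : ℕ, n₀ ≤ n → ∀ T : ℝ, |T - β * x ^ ν n| ≤ x ^ (θ * ν n) → Q T := by
  classical
  obtain ⟨S, T₁, hS, h⟩ := h
  have hcount : ∀ ε : ℝ, 0 < ε → ∃ C : ℝ, ∀ X : ℝ, 1 ≤ X →
      {t : ℕ | t ∈ {m : ℕ | m ∈ S ∨ ∃ n ∈ S, m = n + 1} ∧ (t : ℝ) ≤ X}.Finite ∧
        ({t : ℕ | t ∈ {m : ℕ | m ∈ S ∨ ∃ n ∈ S, m = n + 1} ∧ (t : ℝ) ≤ X}.ncard : ℝ) ≤ C * X ^ (s + ε) := by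
    intro ε hε
    obtain ⟨C, hC⟩ := hS ε hε
    refine ⟨2 * |C|, fun X hX => ?_⟩
    have hfl : 1 ≤ ⌊X⌋₊ := (Nat.one_le_floor_iff X).mpr hX
    obtain ⟨F, hF1, hF2⟩ := hC ⌊X⌋₊ hfl
    have hsub : {t : ℕ | t ∈ {m : ℕ | m ∈ S ∨ ∃ n ∈ S, m = n + 1} ∧ (t : ℝ) ≤ X} ⊆
        ((F ∪ F.image (fun n => n + 1) : Finset ℕ) : Set ℕ) := by
      rintro t ⟨ht1, ht2⟩
      have ht3 : t ≤ ⌊X⌋₊ := Nat.le_floor ht2
      rw [Finset.mem_coe, mem_union, mem_image]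
      rcases ht1 with ht | ⟨n, hn, rfl⟩
      · exact Or.inl (hF1 t ht3 ht)
      · exact Or.inr ⟨n, hF1 n (by omega) hn, rfl⟩
    refine ⟨(Finset.finite_toSet _).subset hsub, ?_⟩
    have h1 := Set.ncard_le_ncard hsub (Finset.finite_toSet _)
    rw [Set.ncard_coe_finset] at h1
    have h2 : (F ∪ F.image (fun n => n + 1)).card ≤ 2 * F.card := by
      calc _ ≤ F.card + (F.image (fun n => n + 1)).card := card_union_le _ _
        _ ≤ F.card + F.card := Nat.add_le_add_left card_image_le _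
        _ = 2 * F.card := by ring
    have h3 : ({t : ℕ | t ∈ {m : ℕ | m ∈ S ∨ ∃ n ∈ S, m = n + 1} ∧ (t : ℝ) ≤ X}.ncard : ℝ) ≤ 2 * F.card := by
      exact_mod_cast h1.trans h2
    have h4 : (⌊X⌋₊ : ℝ) ^ (s + ε) ≤ X ^ (s + ε) :=
      Real.rpow_le_rpow (Nat.cast_nonneg _) (Nat.floor_le (by linarith)) (by linarith)
    have h5 : (F.card : ℝ) ≤ |C| * X ^ (s + ε) :=
      hF2.trans ((mul_le_mul_of_nonneg_right (le_abs_self C) (by positivity)).trans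
        (mul_le_mul_of_nonneg_left h4 (abs_nonneg C)))
    linarith
  obtain ⟨E, hE, hE2⟩ := powers {m : ℕ | m ∈ S ∨ ∃ n ∈ S, m = n + 1} (fun m : ℕ => (m : ℝ)) hν hβ hs hθ hcount
  refine ⟨E, hE, fun x hx hxE => ?_⟩
  obtain ⟨n₀, hn₀⟩ := hE2 x hx hxE
  obtain ⟨n₁, hn₁⟩ := large_of_near hν hβ hθ hx (max T₁ 0)
  have hνpos : ∃ n₂ : ℕ, ∀ n : ℕ, n₂ ≤ n → 0 ≤ ν n := by
    have h1 : Tendsto ν atTop atTop := Pool.Agent.V11001.KM.tendsto_lam hν
    obtain ⟨n₂, hn₂⟩ := (h1.eventually_ge_atTop 0).exists_forall_of_atTop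
    exact ⟨n₂, hn₂⟩
  obtain ⟨n₂, hn₂⟩ := hνpos
  refine ⟨max n₀ (max n₁ n₂), fun n hn T hT => ?_⟩
  have g0 := hn₀ n ((le_max_left _ _).trans hn)
  have g1 := hn₁ n (((le_max_left _ _).trans (le_max_right _ _)).trans hn) T hT
  have g2 := hn₂ n (((le_max_right _ _).trans (le_max_right _ _)).trans hn)
  refine h T ((le_max_left _ _).trans g1) fun hTS => ?_
  have hT0 : 0 ≤ T := (le_max_right _ _).trans g1
  have hW : 1 ≤ x ^ (θ * ν n) := Real.one_le_rpow hx.le (mul_nonneg hθ0 g2)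
  have k1 := Nat.floor_le hT0
  have k2 := Nat.lt_floor_add_one T
  obtain ⟨k3, k4⟩ := abs_le.1 hT
  have g3 := g0 ⌊T⌋₊ (Or.inl hTS)
  have g4 := g0 (⌊T⌋₊ + 1) (Or.inr ⟨_, hTS, rfl⟩)
  push_cast at g4
  rw [lt_abs] at g3 g4
  rcases g3 with g3 | g3
  · linarith
  · rcases g4 with g4 | g4
    · linarith
    · linarith

lemma null_of_dim {k : ℕ} {E : Set (Fin k → ℝ)} {d : ℝ} (hk : 1 ≤ k) (hd : d < k) (h : dimH E ≤ ENNReal.ofReal d) :
    ∀ᵐ α : Fin k → ℝ, α ∉ E := by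
  have h1 : dimH E < ((k : NNReal) : ENNReal) := by
    refine lt_of_le_of_lt h ?_
    have hk0 : (0 : ℝ) < k := by exact_mod_cast hk
    rw [show (((k : NNReal) : ENNReal)) = ENNReal.ofReal (k : ℝ) by
      rw [ENNReal.ofReal_natCast]; simp]
    exact (ENNReal.ofReal_lt_ofReal_iff hk0).2 hd
  have h2 : μH[((k : NNReal) : ℝ)] E = 0 := hausdorffMeasure_of_dimH_lt h1
  have h3 : (volume : Measure (Fin k → ℝ)) E = 0 := by
    rw [← hausdorffMeasure_pi_real, Fintype.card_fin]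
    simpa using h2
  rw [ae_iff]
  simpa using h3

lemma null_of_dim_real {E : Set ℝ} {d : ℝ} (hd : d < 1) (h : dimH E ≤ ENNReal.ofReal d) : ∀ᵐ x : ℝ, x ∉ E := by
  have h1 : dimH E < ((1 : NNReal) : ENNReal) := by
    refine lt_of_le_of_lt h ?_
    rw [show (((1 : NNReal) : ENNReal)) = ENNReal.ofReal (1 : ℝ) by simp]
    exact (ENNReal.ofReal_lt_ofReal_iff one_pos).2 hd
  have h2 : μH[((1 : NNReal) : ℝ)] E = 0 := hausdorffMeasure_of_dimH_lt h1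
  have h3 : (volume : Measure ℝ) E = 0 := by
    rw [← hausdorffMeasure_real]
    simpa using h2
  rw [ae_iff]
  simpa using h3

/-- **Countable families of typical properties at once.** -/
theorem ae_all {ι : Type*} [Countable ι] (Q : ι → ℝ → Prop) (hQ : ∀ i, ∃ s : ℝ, 0 ≤ s ∧ s < 1 ∧ Typical s (Q i)) :
    (∀ (k : ℕ) (J : Type) (v : J → Fin k → ℝ), 1 ≤ k → Fam v 0 → ∀ᵐ α : Fin k → ℝ, ∀ (i : ι) (w : ℝ),
      {j | ¬ ∀ T : ℝ, 0 < T → |T - ∑ l, α l * v j l| ≤ w → Q i T}.Finite) ∧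
    (∀ (ν : ℕ → ℝ) (β : ℝ), Fast ν → 0 < β → ∀ᵐ x : ℝ, 1 < x → ∀ i : ι, ∀ᶠ n : ℕ in atTop, Q i (β * x ^ ν n)) ∧
    ∀ G : ℕ → ℝ, Heights G →
      (∀ k : ℕ, 1 ≤ k → ∀ᵐ α : Fin k → ℝ, ∀ (i : ι) (c : ℝ), {q : ℕ | Approx c (1 / k) α q ∧ ¬ Q i (G q)}.Finite) ∧
      ∀ᵐ ξ : ℝ, ∀ i : ι, ∀ᶠ n : ℕ in atTop, Q i (G (ξ.convergent n).den) := by
  refine ⟨fun k J v hk hv => ?_, fun ν β hν hβ => ?_, fun G hG => ⟨fun k hk => ?_, ?_⟩⟩
  · rw [ae_all_iff]
    intro i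
    obtain ⟨s, hs0, hs1, h⟩ := hQ i
    obtain ⟨E, hE, hE2⟩ := typical_linear hs0 h v le_rfl le_rfl one_pos hv
    have hd : (k : ℝ) - 1 + (s + 0) / (1 - 0) < k := by
      rw [add_zero, sub_zero, div_one]
      linarith
    filter_upwards [null_of_dim hk hd hE] with α hα w
    refine (hE2 α hα w).subset ?_
    intro j hj hcon
    refine hj fun T hT hTw => hcon T hT ?_
    rwa [Real.rpow_zero, mul_one]
  · have : ∀ᵐ x : ℝ, ∀ i : ι, 1 < x → ∀ᶠ n : ℕ in atTop, Q i (β * x ^ ν n) := by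
      rw [ae_all_iff]
      intro i
      obtain ⟨s, hs0, hs1, h⟩ := hQ i
      obtain ⟨E, hE, hE2⟩ := typical_powers hs0 h hν hβ le_rfl one_pos
      have hd : s / (1 - 0) < 1 := by
        rw [sub_zero, div_one]
        exact hs1
      filter_upwards [null_of_dim_real hd hE] with x hx hx1
      obtain ⟨n₀, hn₀⟩ := hE2 x hx1 hx
      filter_upwards [eventually_ge_atTop n₀] with n hn
      refine hn₀ n hn _ ?_
      rw [sub_self, abs_zero]
      exact Real.rpow_nonneg (by linarith) _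
    filter_upwards [this] with x hx hx1 i
    exact hx i hx1
  · rw [ae_all_iff]
    intro i
    obtain ⟨s, hs0, hs1, h⟩ := hQ i
    obtain ⟨h1, -⟩ := typical_rarely hs0 hs1 h hG
    filter_upwards [(h1 k hk).2] with α hα c
    refine hα (1 / k) c ?_
    have hk0 : (k : ℝ) ≠ 0 := by
      have : 0 < k := hk
      positivity
    rw [mul_one_div_cancel hk0]
    exact hs1
  · rw [ae_all_iff]
    intro i
    obtain ⟨s, hs0, hs1, h⟩ := hQ i
    obtain ⟨-, h2⟩ := typical_rarely hs0 hs1 h hG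
    filter_upwards [h2] with ξ hξ
    filter_upwards [hξ] with n hn
    exact not_not.1 hn

theorem typical_generic {s : ℝ} {Q : ℝ → Prop} (hs : 0 ≤ s) (hs1 : s < 1) (h : Typical s Q) : Generic Q := by
  obtain ⟨h1, h2, h3⟩ := ae_all (ι := Unit) (fun _ => Q) (fun _ => ⟨s, hs, hs1, h⟩)
  refine ⟨fun k J v hk hv => ?_, fun ν β hν hβ => ?_, fun G hG => ⟨fun k hk => ?_, ?_⟩⟩
  · filter_upwards [h1 k J v hk hv] with α hα w
    exact hα () w
  · filter_upwards [h2 ν β hν hβ] with x hx hx1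
    exact hx hx1 ()
  · filter_upwards [(h3 G hG).1 k hk] with α hα c
    exact hα () c
  · filter_upwards [(h3 G hG).2] with ξ hξ
    exact hξ ()

end Run7.h613.NG
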