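import Pool.Agent.Run7.h613.NG.Core
import Pool.Agent.H370R2.DirGood
import Pool.Agent.Y771.DJ.AA
import Pool.Agent.Y796.PA.Main

/-!
# Simple and distinct zeros of Dirichlet L-functions near typical numbers
-/

set_option autoImplicit false

open Filter Topology MeasureTheory Complex

namespace Run7.h613.NG

open H370 Pool.Agent.TH822.AA Pool.Agent.V11001.SI Pool.Agent.N251.LF.SIP Pool.Agent.Y771.DJ

/-- all intervals of length at least `T ^ η` in `[T - T ^ (η + κ), T + T ^ (η + κ)]` -/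
def Every (η κ T : ℝ) (P : ℝ → ℝ → Prop) : Prop :=
  ∀ a b : ℝ, T - T ^ (η + κ) ≤ a → b ≤ T + T ^ (η + κ) → T ^ η ≤ b - a → P a b

lemma Every.mono {η κ T : ℝ} {P Q : ℝ → ℝ → Prop} (h : ∀ a b, P a b → Q a b) (hP : Every η κ T P) : Every η κ T Q :=
  fun a b ha hb hab => h a b (hP a b ha hb hab)

theorem simple_typical {F : ℂ → ℂ} (hF : GoodL F) (hA : Almost F) {η ε : ℝ} (h0 : 0 < η) (h1 : η < 1) (hε : 0 < ε) :
    ∃ s κ : ℝ, 0 < s ∧ s < 1 ∧ 0 < κ ∧ η + κ < 1 ∧ Typical s (fun T => Every η κ T (fun a b =>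
      1 ≤ a ∧ (2 - H295SI.cc ((1 + η) / 2) - ε) * (NN F a b : ℝ) + 2 * (W69DZ.EX F a b : ℝ) ≤ (Ns F a b : ℝ))) := by
  obtain ⟨s, κ, hs0, hs1, hκ, hκ1, S, T₁, hS, h⟩ := simple_pt hF hA h0 h1 hε
  exact ⟨s, κ, hs0, hs1, hκ, hκ1, S, T₁, hS, fun T hT hTS a b ha hb hab => h T hT hTS a b ha hb hab⟩

open Classical in
/-- the weight of a zero in the inequality for distinct zeros -/
noncomputable def wtJ (j : ℕ) (F : ℂ → ℂ) (c : ℝ) (s : ℂ) : ℝ :=
  c * mult F s + (((if s.re = 1 / 2 then mult F s - (j + 1) else mult F s - 1 : ℕ) : ℝ) +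
    ((j : ℝ) ^ 2 + 1) / 2 * (if s.re = 1 / 2 then 0 else 1)) - (j : ℝ) * (j + 1)

lemma W_wtJ (j : ℕ) {F : ℂ → ℂ} (hF : GoodL F) (c : ℝ) {a b : ℝ} (ha : 1 ≤ a) :
    W F (wtJ j F c) a b = c * (NN F a b : ℝ) + SJ j F a b - (j : ℝ) * (j + 1) * (Nd F a b : ℝ) := by
  classical
  have hNd : (Nd F a b : ℝ) = ((Zf F a b).card : ℝ) := by
    have h : zset F a b = ((Zf F a b : Finset ℂ) : Set ℂ) := by
      ext s
      rw [Finset.mem_coe, mem_Zf hF ha]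
    unfold Nd
    rw [h, Set.ncard_coe_finset]
  have hS := SJ_eq hF ha (U2 := b) j
  have hN : (NN F a b : ℝ) = ∑ s ∈ Zf F a b, (mult F s : ℝ) := by
    rw [NN_eq hF ha]
    push_cast
    rfl
  unfold W wtJ
  rw [Finset.sum_sub_distrib, Finset.sum_add_distrib, ← Finset.mul_sum, ← hN, Finset.sum_const, nsmul_eq_mul, hNd, hS]
  rw [mul_comm ((Zf F a b).card : ℝ)]

/-- **Distinct zeros near typical numbers.** -/
theorem distinct_typical (j : ℕ) (hj : 1 ≤ j) {F : ℂ → ℂ} (hF : GoodL F) (hB : ∀ τ : ℝ, 0 < τ → τ ≤ 1 → Pool.Agent.TH822.DZ.BZr F τ)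
    {η ε : ℝ} (h0 : 0 < η) (h1 : η < 1) (hε : 0 < ε) :
    ∃ s κ : ℝ, 0 < s ∧ s < 1 ∧ 0 < κ ∧ η + κ < 1 ∧ Typical s (fun T => Every η κ T (fun a b =>
      1 ≤ a ∧ (2 * j + 1 - H295SI.cc ((1 + η) / 2) - ε) * (NN F a b : ℝ) + SJ j F a b ≤
        (j : ℝ) * (j + 1) * (Nd F a b : ℝ))) := by
  have hj1 : (1 : ℝ) ≤ j := by exact_mod_cast hj
  set lam : ℝ := (1 + η) / 2 with hlam
  have hlam0 : 1 / 2 < lam := by linarith
  have hlam1 : lam ≤ 1 := by linarith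
  have hc := H370.AS.cc_cont lam (by linarith) hlam1
  have h2 : ∀ᶠ x : ℝ in 𝓝[<] lam, (1 / 2 < x ∧ x < lam) ∧ H295SI.cc x < H295SI.cc lam + ε / 3 := by
    have e1 : ∀ᶠ x : ℝ in 𝓝[<] lam, 1 / 2 < x := nhdsWithin_le_nhds (lt_mem_nhds hlam0)
    have e2 : ∀ᶠ x : ℝ in 𝓝[<] lam, x < lam := self_mem_nhdsWithin
    have e3 : ∀ᶠ x : ℝ in 𝓝[<] lam, H295SI.cc x < H295SI.cc lam + ε / 3 :=
      nhdsWithin_le_nhds (hc.eventually (gt_mem_nhds (by linarith)))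
    exact (e1.and e2).and e3
  obtain ⟨y, ⟨hy0, hy1⟩, hy2⟩ := h2.exists
  have hyle : y ≤ 1 := by linarith
  have hcy := H370.AS.cc_nonneg y (by linarith) hyle
  obtain ⟨δ, hδ, T0, hT0, hT⟩ := almost_j j hj hF hB (2 * y - 1) y (ε / 3) (by linarith) (by linarith) (by linarith)
    (by linarith) (by positivity)
  set c : ℝ := 2 * j + 1 - H295SI.cc y - ε / 3 with hcdef
  obtain ⟨s, κ, hs0, hs1, hκ0, hκ1, h⟩ := zeros_pt hF (wtJ j F c) (M := 2 * j + 1 + 1 + ((j : ℝ) ^ 2 + 1) / 2)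
    (by positivity) (fun s hs0 hs => by
      have hm : (1 : ℝ) ≤ mult F s := by exact_mod_cast Loc.mult_pos' hF hs hs0
      have e1 : c * (mult F s : ℝ) ≤ (2 * j + 1) * mult F s := by
        apply mul_le_mul_of_nonneg_right _ (by linarith)
        linarith
      have e2 : ((if s.re = 1 / 2 then mult F s - (j + 1) else mult F s - 1 : ℕ) : ℝ) ≤ mult F s := by
        have : (if s.re = 1 / 2 then mult F s - (j + 1) else mult F s - 1 : ℕ) ≤ mult F s := by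
          split_ifs <;> omega
        exact_mod_cast this
      have e3 : ((j : ℝ) ^ 2 + 1) / 2 * (if s.re = 1 / 2 then (0 : ℝ) else 1) ≤ ((j : ℝ) ^ 2 + 1) / 2 * mult F s := by
        apply mul_le_mul_of_nonneg_left _ (by positivity)
        split_ifs <;> linarith
      have e4 : 0 ≤ (j : ℝ) * (j + 1) := by positivity
      unfold wtJ
      nlinarith)
    (η₁ := 2 * y - 1) (η := η) (δ := δ) (T₀ := max T0 1) (by linarith) (by linarith) h1 hδ (fun T hTT H hH1 hH2 => by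
      refine (measure_mono ?_).trans (hT T ((le_max_left _ _).trans hTT) H hH1 hH2)
      rintro t ⟨ht1, ht2⟩
      refine ⟨ht1, fun hcon => ?_⟩
      have hT1 : 1 ≤ T := (le_max_right _ _).trans hTT
      rw [W_wtJ j hF c (hT1.trans ht1.1)] at ht2
      linarith)
  obtain ⟨S, T₁, hS, hT₁⟩ := h (ε / 3) (by positivity)
  refine ⟨s, κ, hs0, hs1, hκ0, hκ1, S, T₁, hS, fun T hTT hTS a b ha hb hab => ?_⟩
  obtain ⟨ha1, hW⟩ := hT₁ T hTT hTS a b ha hb hab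
  rw [W_wtJ j hF c ha1] at hW
  have hNN : (0 : ℝ) ≤ NN F a b := Nat.cast_nonneg _
  have h5 : (2 * j + 1 - H295SI.cc lam - ε) * (NN F a b : ℝ) ≤ (c - ε / 3) * (NN F a b : ℝ) := by
    apply mul_le_mul_of_nonneg_right _ hNN
    rw [hcdef]
    linarith
  exact ⟨ha1, by linarith⟩

end Run7.h613.NG
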