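import Pool.Agent.Run7.h613.NG.Super
import Pool.Agent.Results.MP_00e05b_nt.LargeValues

/-!
# Large values of Montgomery's function for the zeros in every short interval near typical numbers
-/

set_option autoImplicit false

open Filter Topology MeasureTheory

namespace Run7.h613.NG

open TH801.FM SG H177.Lat Pool.Agent.Y796.PA
open Pool.Agent.Results.MP_00e05b_nt.LargeValues (FI Q Q_sub Q_abs Q_window FI_diff Zf_eq zeros_finite)

/-- the term of the pair sum -/
noncomputable def tm (T θ : ℝ) (n m : ℕ) : ℝ :=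
  ww (ord n - ord m) * (Real.sin (Real.pi * θ * (yy T n - yy T m))) ^ 2

lemma tm_nonneg (T θ : ℝ) (n m : ℕ) : 0 ≤ tm T θ n m := by
  have := ww_nonneg (ord n - ord m)
  unfold tm
  positivity

/-- the pair sum in `(a, b]` -/
noncomputable def SF (T θ a b : ℝ) : ℝ := ∑ n ∈ Finset.Ioc (NZ a) (NZ b), ∑ m ∈ Finset.Ioc (NZ a) (NZ b), tm T θ n m

lemma SF_nonneg (T θ a b : ℝ) : 0 ≤ SF T θ a b :=
  Finset.sum_nonneg fun n _ => Finset.sum_nonneg fun m _ => tm_nonneg T θ n m

lemma SF_SS (T θ t H : ℝ) : SF T θ t (t + H) = SS T t H θ := rfl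

lemma SF_super (T θ : ℝ) {a b c : ℝ} (hab : a ≤ b) (hbc : b ≤ c) : SF T θ a b + SF T θ b c ≤ SF T θ a c := by
  have h1 := SG.NZ_mono hab
  have h2 := SG.NZ_mono hbc
  have hU : Finset.Ioc (NZ a) (NZ b) ∪ Finset.Ioc (NZ b) (NZ c) = Finset.Ioc (NZ a) (NZ c) :=
    Finset.Ioc_union_Ioc_eq_Ioc h1 h2
  have hD : Disjoint (Finset.Ioc (NZ a) (NZ b)) (Finset.Ioc (NZ b) (NZ c)) := by
    rw [Finset.disjoint_left]
    intro x hx hx'
    rw [Finset.mem_Ioc] at hx hx'
    omega
  unfold SF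
  rw [← hU, Finset.sum_union hD]
  refine add_le_add ?_ ?_
  · refine Finset.sum_le_sum fun n _ => ?_
    rw [Finset.sum_union hD]
    have := Finset.sum_nonneg fun m (_ : m ∈ Finset.Ioc (NZ b) (NZ c)) => tm_nonneg T θ n m
    linarith
  · refine Finset.sum_le_sum fun n _ => ?_
    rw [Finset.sum_union hD]
    have := Finset.sum_nonneg fun m (_ : m ∈ Finset.Ioc (NZ a) (NZ b)) => tm_nonneg T θ n m
    linarith

/-- **Large values of Montgomery's function near typical numbers.** -/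
theorem freq_typical (hRH : RiemannHypothesis) {η ε : ℝ} (h0 : 0 < η) (h1 : η < 1) (hε : 0 < ε) :
    ∃ s κ c : ℝ, 0 < s ∧ s < 1 ∧ 0 < κ ∧ 0 < c ∧ Typical s (fun T => ∀ a b : ℝ, T - T ^ (η + κ) ≤ a →
      b ≤ T + T ^ (η + κ) → T ^ η ≤ b - a → ∀ α β : ℝ, ε ≤ |α - β| → |α - β| ≤ 1 + η - ε →
        c * Real.log T ≤ ((FI 0 T a b).re - (FI α T a b).re) + ((FI 0 T a b).re - (FI β T a b).re)) := by
  obtain ⟨e, he, he1, he2⟩ : ∃ e : ℝ, 0 < e ∧ e ≤ ε / 8 ∧ e ≤ η / 2 :=
    ⟨min (ε / 8) (η / 2), lt_min (by positivity) (by positivity), min_le_left _ _, min_le_right _ _⟩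
  have hη1 : 0 < η - e := by linarith
  obtain ⟨c₁, δ, hc₁, hδ, T0, hT0, g⟩ := almost_uniform hRH (η - e) e hη1 (by linarith) he
  have haa : AA (η - e) (fun T H t => ∀ θ ∈ Set.Icc e (1 + (η - e) - e),
      c₁ * (H * Real.log T) ≤ SF T θ t (t + H) / Real.log T) := by
    refine ⟨δ, hδ, T0, fun T hT H hH1 hH2 => (measure_mono ?_).trans (g T hT H hH1 hH2)⟩
    rintro t ⟨ht1, ht2⟩
    refine ⟨ht1, fun hcon => ht2 fun θ hθ => ?_⟩
    have hL : 0 < Real.log T := Real.log_pos (by linarith [hT0.trans hT])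
    rw [le_div_iff₀ hL, SF_SS]
    refine le_trans (le_of_eq ?_) (hcon θ hθ)
    ring
  obtain ⟨s, κ, hs0, hs1, hκ, hκ1, hT⟩ := every_of_aa (X := ℝ) hη1 (by linarith : η - e < η) h1
    (fun τ θ a b => SF τ θ a b / |Real.log τ|) (fun _ => Set.Icc e (1 + (η - e) - e))
    (fun τ θ a b => div_nonneg (SF_nonneg _ _ _ _) (abs_nonneg _))
    (fun τ θ a b c _ ha hab hbc => by
      rw [← add_div]
      exact div_le_div_of_nonneg_right (SF_super τ θ hab hbc) (abs_nonneg _))
    hc₁.le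
    (by
      obtain ⟨δ', hδ', T0', g'⟩ := haa
      refine ⟨δ', hδ', max T0' 2, fun T hT H hH1 hH2 => (measure_mono ?_).trans (g' T ((le_max_left _ _).trans hT) H hH1 hH2)⟩
      rintro t ⟨ht1, ht2⟩
      refine ⟨ht1, fun hcon => ht2 fun θ hθ => ?_⟩
      have hL : 0 < Real.log T := Real.log_pos (by linarith [(le_max_right T0' 2).trans hT])
      rw [abs_of_pos hL]
      exact hcon θ hθ)
  refine ⟨s, κ, c₁ / 8, hs0, hs1, hκ, by positivity, ?_⟩
  have ev2 : ∀ᶠ T : ℝ in atTop, Real.log 2 * (1 + (η - e) - e) / e ≤ Real.log T :=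
    Real.tendsto_log_atTop.eventually_ge_atTop _
  obtain ⟨T₀, hT₀⟩ := eventually_atTop.1 (ev2.and (eventually_ge_atTop (16 : ℝ)))
  refine (hT (c₁ / 2) (by positivity)).mono_large T₀ ?_
  rintro T hTT ⟨τ, hτ4, hτ1, hτ2, hall⟩ a b ha hb hab α β hαβ1 hαβ2
  obtain ⟨g2, g3⟩ := hT₀ T hTT
  have hpi := Real.pi_pos
  have hTW : 0 < T ^ (η + κ) := Real.rpow_pos_of_pos (by linarith) _
  have hτT : τ ≤ T := by linarith
  have hT2 : T ≤ 2 * τ := by linarith
  have hτ0 : 0 < τ := by linarith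
  have hT0' : 0 < T := by linarith
  have hlτ : 0 < Real.log τ := Real.log_pos (by linarith)
  have hlT : 0 < Real.log T := Real.log_pos (by linarith)
  have hl1 : Real.log τ ≤ Real.log T := Real.log_le_log hτ0 hτT
  have hl2 : Real.log T ≤ Real.log 2 + Real.log τ := by
    rw [← Real.log_mul (by norm_num) hτ0.ne']
    exact Real.log_le_log (by linarith) hT2
  have hl3 : Real.log T ≤ 2 * Real.log τ := by
    have : Real.log 2 ≤ Real.log τ := Real.log_le_log (by norm_num) (by linarith)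
    linarith
  have hab0 : 0 < b - a := lt_of_lt_of_le (Real.rpow_pos_of_pos (by linarith) _) hab
  have ha1 : 1 ≤ a := by linarith
  obtain ⟨θ, hθ⟩ : ∃ θ : ℝ, θ = |α - β| * (Real.log T / Real.log τ) := ⟨_, rfl⟩
  have hmem : θ ∈ Set.Icc e (1 + (η - e) - e) := by
    have hr1 : 1 ≤ Real.log T / Real.log τ := by rw [le_div_iff₀ hlτ]; linarith
    constructor
    · calc e ≤ |α - β| * 1 := by linarith
        _ ≤ θ := by rw [hθ]; exact mul_le_mul_of_nonneg_left hr1 (abs_nonneg _)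
    · -- `|α - β| log T ≤ (1 + η - ε) log T ≤ (1 + η - 2 e) log τ`
      rw [hθ, mul_div_assoc', div_le_iff₀ hlτ]
      have k1 : |α - β| * Real.log T ≤ (1 + (η - e) - e - e) * Real.log T := by
        apply mul_le_mul_of_nonneg_right _ hlT.le
        linarith
      rw [div_le_iff₀ he] at g2
      have k2 : (1 + (η - e) - e) * Real.log T ≤ (1 + (η - e) - e) * (Real.log 2 + Real.log τ) :=
        mul_le_mul_of_nonneg_left hl2 (by linarith)
      nlinarith
  have key := hall θ hmem a b ha hb hab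
  simp only [abs_of_pos hlτ] at key
  rw [le_div_iff₀ hlτ] at key
  have e1 : a + (b - a) = b := by ring
  have hSS : SF τ θ a b = Q (H370.Zf riemannZeta a b) (|α - β| * Real.log T) := by
    have h := Q_window hRH ha1 (b - a) τ θ
    rw [e1] at h
    have h2 : SF τ θ a b = SS τ a (b - a) θ := by
      rw [← SF_SS, e1]
    rw [h2, ← h]
    congr 1
    rw [hθ]
    field_simp
  rw [hSS, ← Q_abs, ← Zf_eq ha1] at key
  rw [FI_diff hT0' (by linarith : (0 : ℝ) ≤ a), FI_diff hT0' (by linarith : (0 : ℝ) ≤ a)]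
  have h4 := Q_sub (zeros_finite (zero_le_one.trans ha1) b).toFinset (α * Real.log T) (β * Real.log T)
  rw [← sub_mul] at h4
  have hX : 0 < (b - a) / (2 * Real.pi) * Real.log T := by positivity
  rw [← mul_add, inv_mul_eq_div, le_div_iff₀ hX]
  refine le_trans ?_ (key.trans (h4.trans (le_of_eq (by ring))))
  have k1 : c₁ / 8 * Real.log T * ((b - a) / (2 * Real.pi) * Real.log T) =
      c₁ / (16 * Real.pi) * (b - a) * (Real.log T * Real.log T) := by
    field_simp
    ring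
  have k2 : (c₁ - c₁ / 2) * ((b - a) * Real.log τ) * Real.log τ = c₁ / 2 * (b - a) * (Real.log τ * Real.log τ) := by ring
  rw [k1, k2]
  have k3 : Real.log T * Real.log T ≤ 4 * (Real.log τ * Real.log τ) := by nlinarith
  have hpi3 := Real.pi_gt_three
  calc c₁ / (16 * Real.pi) * (b - a) * (Real.log T * Real.log T) ≤
        c₁ / (16 * Real.pi) * (b - a) * (4 * (Real.log τ * Real.log τ)) := by gcongr
    _ ≤ c₁ / (16 * 1) * (b - a) * (4 * (Real.log τ * Real.log τ)) := by
        gcongr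
        linarith
    _ = c₁ / 4 * (b - a) * (Real.log τ * Real.log τ) := by ring
    _ ≤ c₁ / 2 * (b - a) * (Real.log τ * Real.log τ) := by
        gcongr
        linarith

end Run7.h613.NG
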