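import Pool.Agent.Run7.h613.NG.Dir
import Pool.Agent.TH803.CL.Win
import Pool.Agent.Y771.DJ.AA

/-!
# Isolated simple critical zeros near typical numbers
-/

set_option autoImplicit false

open Filter Topology MeasureTheory Complex

namespace Run7.h613.NG

open H370 H370.A2 H295SI H370.AS Pool.Agent.TH822.DZ Pool.Agent.TH822.AA Pool.Agent.V11001.SI Pool.Agent.N251.LF.SIP
open TH803CL (isoZ isoA iso_zeros ends2 card_diff)

/-- a simple zero on the critical line, at distance at least `δ / log γ` from all other zeros of the strip -/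
def Isol (F : ℂ → ℂ) (δ : ℝ) (s : ℂ) : Prop :=
  s.re = 1 / 2 ∧ mult F s = 1 ∧ ∀ s' : ℂ, F s' = 0 → 0 < s'.re → s'.re < 1 → s' ≠ s → δ / Real.log s.im ≤ ‖s - s'‖

open Classical in
/-- the number of these zeros -/
noncomputable def NI (F : ℂ → ℂ) (δ a b : ℝ) : ℕ := ((Zf F a b).filter (Isol F δ)).card

/-- almost all intervals: isolated zeros in the interval -/
theorem almost_iso {F : ℂ → ℂ} (hF : GoodL F) (hB : ∀ τ : ℝ, 0 < τ → τ ≤ 1 → BZr F τ) (η0 lam ε d : ℝ) (hη0 : 0 < η0)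
    (hη1 : η0 < 1) (hlam : 0 < lam) (hgap : 2 * lam ≤ 1 + η0) (hε : 0 < ε) (hd : 0 < d) (hd1 : d ≤ 1 / 3) :
    ∃ δ : ℝ, 0 < δ ∧ ∃ T0 : ℝ, 10 ≤ T0 ∧ ∀ T : ℝ, T0 ≤ T → ∀ H : ℝ,
    T ^ η0 ≤ H → H ≤ T / 8 →
    volume {t : ℝ | t ∈ Set.Icc T (2 * T) ∧
      ¬ ((2 - cc lam - 74 * d ^ 2 - ε) * (NN F t (t + H) : ℝ) ≤ ((isoZ F t (t + H) (d / Real.log T)).card : ℝ))} ≤
      ENNReal.ofReal (T ^ (1 - δ)) := by
  have hlam1 : lam ≤ 1 := by linarith
  have hc := cc_cont lam hlam hlam1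
  have h1 : ∀ᶠ x : ℝ in 𝓝[<] lam, (0 < x ∧ x < lam) ∧ cc x < cc lam + ε / 4 := by
    have e1 : ∀ᶠ x : ℝ in 𝓝[<] lam, 0 < x := nhdsWithin_le_nhds (lt_mem_nhds hlam)
    have e2 : ∀ᶠ x : ℝ in 𝓝[<] lam, x < lam := self_mem_nhdsWithin
    have e3 : ∀ᶠ x : ℝ in 𝓝[<] lam, cc x < cc lam + ε / 4 :=
      nhdsWithin_le_nhds (hc.eventually (gt_mem_nhds (by linarith)))
    exact (e1.and e2).and e3
  obtain ⟨x, ⟨hx0, hx1⟩, hx2⟩ := h1.exists
  have hxle : x ≤ 1 := by linarith
  have hR := H793SI.convS _ (s_pos x hx0) (s_le x hxle)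
  have hW := H255SI.winS _ (s_pos x hx0) (s_le x hxle)
  have hK := H218SI3.kSqS _ (s_pos x hx0) (s_le x hxle)
  have hc0 := cc_nonneg x hx0 hxle
  obtain ⟨a, ha, hld⟩ := hF.ld
  set c : ℝ := cc x with hcdef
  set η : ℝ := min (1 / 2) (ε / (4 * (c + ε + 1))) with hη
  have hη00 : 0 < η := lt_min (by norm_num) (by positivity)
  have hηh : η ≤ 1 / 2 := min_le_left _ _
  have hηe : η * (4 * (c + ε + 1)) ≤ ε := by
    have : η ≤ ε / (4 * (c + ε + 1)) := min_le_right _ _
    rwa [le_div_iff₀ (by positivity)] at this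
  set τ : ℝ := η0 / 4 with hτ
  have hτ0 : 0 < τ := by positivity
  obtain ⟨δ, hδ, T0, hT0, h⟩ := almost_up hR hF ha hld hτ0.le (hB τ hτ0 (by linarith)) η0 x η
    hη0 hη1 hx0 (by linarith) (by nlinarith) hη00
  obtain ⟨T1, hT1⟩ := (Real.tendsto_log_atTop.eventually_ge_atTop 10).exists_forall_of_atTop
  refine ⟨δ, hδ, max T0 T1, hT0.trans (le_max_left _ _), fun T hT H hH1 hH2 =>
    (measure_mono ?_).trans (h T ((le_max_left _ _).trans hT) H hH1 hH2)⟩
  have hL10 : 10 ≤ Real.log T := hT1 T ((le_max_right _ _).trans hT)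
  have hT10 : 10 ≤ T := (hT0.trans (le_max_left _ _)).trans hT
  have hTpos : 0 < T := by linarith
  rintro t ⟨ht1, ht2⟩
  refine ⟨ht1, fun hcon => ht2 ?_⟩
  obtain ⟨h3, h4⟩ := hcon
  have hHpos : 0 < H := lt_of_lt_of_le (Real.rpow_pos_of_pos hTpos _) hH1
  have hL : 0 < Real.log T := by linarith
  have hU : 1 ≤ t := by linarith [ht1.1]
  have hpi := Real.pi_pos
  set M : ℝ := H * Real.log T / (2 * Real.pi) with hM
  have hM0 : 0 < M := by positivity
  have hPS : PS (RS (Real.sqrt 2 * x)) F t (t + H) (x * Real.log T) =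
      QQG (gS (Real.sqrt 2 * x)) F (x * Real.log T) t (t + H) := by
    rw [H228SI.qqJJ (gS (Real.sqrt 2 * x)) _ hW hR hK F hF t (t + H) hU (x * Real.log T)]
    rfl
  rw [ccR_eq x hx0 hxle, ← hcdef, hPS] at h4
  obtain ⟨hNNl, hNNu⟩ := abs_le.mp h3
  have hb2 := iso_zeros hF (A := t) (B := t + H) hU hW (Λ := x * Real.log T) (L := Real.log T) (δ := d) (by positivity)
    (by nlinarith) hL10 hd hd1
  set N : ℝ := (NN F t (t + H) : ℝ) with hN
  have hN0 : (0 : ℝ) ≤ N := Nat.cast_nonneg _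
  have hNM : M * (1 - η) ≤ N := by linarith
  have hkey : M * (c + η) ≤ (c + ε / 2) * N := by
    have h5 : c + η ≤ (c + ε / 2) * (1 - η) := by nlinarith
    calc M * (c + η) ≤ M * ((c + ε / 2) * (1 - η)) := by gcongr
      _ = (c + ε / 2) * (M * (1 - η)) := by ring
      _ ≤ _ := by gcongr
  have hcN : (c + ε / 2) * N ≤ (cc lam + ε) * N := by
    apply mul_le_mul_of_nonneg_right _ hN0
    linarith
  linarith

/-- from the interval to the strip -/
lemma isoZ_le {F : ℂ → ℂ} (hF : GoodL F) : ∃ C : ℝ, 0 < C ∧ ∀ T t H d : ℝ, 10 ≤ T → 1 ≤ Real.log T → T ≤ t → 6 ≤ H → H ≤ t →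
    0 < d → d ≤ 1 → ((isoZ F t (t + H) (d / Real.log T)).card : ℝ) ≤ NI F d t (t + H) + C * Real.log t := by
  classical
  obtain ⟨C, hC, hends⟩ := ends2 hF
  refine ⟨C, hC, fun T t H d hT hLT hTt hH hHt hd hd1 => ?_⟩
  have hL0 : 0 < Real.log T := by linarith
  have ht1 : 1 ≤ t := by linarith
  have hdl : d / Real.log T ≤ 1 := by
    rw [div_le_one hL0]; linarith
  have hsub : isoZ F t (t + H) (d / Real.log T) ⊆ (Zf F t (t + H)).filter (Isol F d) ∪
      (Zf F t (t + H) \ Zf F (t + 2) (t + H - 2)) := by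
    intro s hs
    unfold isoZ at hs
    rw [Finset.mem_filter] at hs
    obtain ⟨hs1, hs2, hs3, hs4⟩ := hs
    rw [Finset.mem_union]
    by_cases hin : s ∈ Zf F (t + 2) (t + H - 2)
    · left
      rw [Finset.mem_filter]
      refine ⟨hs1, hs2, hs3, fun s' h0 hre hre' hne => ?_⟩
      have h3 := (mem_Zf hF (by linarith : 1 ≤ t + 2)).mp hin
      have hlog : d / Real.log s.im ≤ d / Real.log T := by
        have h5 : Real.log T ≤ Real.log s.im := Real.log_le_log (by linarith) (by linarith [h3.2.2.1])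
        exact div_le_div_of_nonneg_left hd.le hL0 h5
      by_contra hlt
      push Not at hlt
      have hlt' := hlt.trans_le hlog
      have h1 := (Complex.abs_im_le_norm (s - s')).trans_lt hlt'
      rw [Complex.sub_im] at h1
      have h2 := abs_lt.1 (h1.trans_le hdl)
      have h4 : s' ∈ Zf F t (t + H) := (mem_Zf hF ht1).mpr
        ⟨hre, hre', by linarith [h3.2.2.1], by linarith [h3.2.2.2.1], h0⟩
      have := hs4 s' h4 hne
      linarith
    · right
      exact Finset.mem_sdiff.2 ⟨hs1, hin⟩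
  have hcard : ((isoZ F t (t + H) (d / Real.log T)).card : ℝ) ≤
      (((Zf F t (t + H)).filter (Isol F d)).card : ℝ) +
        ((Zf F t (t + H) \ Zf F (t + 2) (t + H - 2)).card : ℝ) := by
    exact_mod_cast (Finset.card_le_card hsub).trans (Finset.card_union_le _ _)
  have hdiff := card_diff hF (A := t) (B := t + H) (A' := t + 2) (B' := t + H - 2) ht1 (by linarith) (by linarith)
  have he := hends t (by linarith) H hH hHt
  have : (NI F d t (t + H) : ℝ) = (((Zf F t (t + H)).filter (Isol F d)).card : ℝ) := rfl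
  linarith

open Classical in
/-- the weight -/
noncomputable def wtI (F : ℂ → ℂ) (d c : ℝ) (s : ℂ) : ℝ := c * mult F s - (if Isol F d s then 1 else 0)

lemma W_wtI {F : ℂ → ℂ} (hF : GoodL F) (d c : ℝ) {a b : ℝ} (ha : 1 ≤ a) :
    W F (wtI F d c) a b = c * (NN F a b : ℝ) - NI F d a b := by
  classical
  have hN : (NN F a b : ℝ) = ∑ s ∈ Zf F a b, (mult F s : ℝ) := by
    rw [NN_eq hF ha]
    push_cast
    rfl
  unfold W wtI NI
  rw [Finset.sum_sub_distrib, ← Finset.mul_sum, ← hN, Finset.card_filter]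
  push_cast
  rfl

/-- **Isolated simple critical zeros near typical numbers.** -/
theorem iso_typical {F : ℂ → ℂ} (hF : GoodL F) (hB : ∀ τ : ℝ, 0 < τ → τ ≤ 1 → BZr F τ) {η ε d : ℝ} (h0 : 0 < η)
    (h1 : η < 1) (hε : 0 < ε) (hd : 0 < d) (hd1 : d ≤ 1 / 3) :
    ∃ s κ : ℝ, 0 < s ∧ s < 1 ∧ 0 < κ ∧ η + κ < 1 ∧ Typical s (fun T => Every η κ T (fun a b =>
      1 ≤ a ∧ (2 - cc ((1 + η) / 2) - 74 * d ^ 2 - ε) * (NN F a b : ℝ) ≤ (NI F d a b : ℝ))) := by
  set lam : ℝ := (1 + η) / 2 with hlam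
  have hlam0 : 1 / 2 < lam := by linarith
  have hlam1 : lam ≤ 1 := by linarith
  have hc := H370.AS.cc_cont lam (by linarith) hlam1
  have h2 : ∀ᶠ x : ℝ in 𝓝[<] lam, (1 / 2 < x ∧ x < lam) ∧ cc x < cc lam + ε / 4 := by
    have e1 : ∀ᶠ x : ℝ in 𝓝[<] lam, 1 / 2 < x := nhdsWithin_le_nhds (lt_mem_nhds hlam0)
    have e2 : ∀ᶠ x : ℝ in 𝓝[<] lam, x < lam := self_mem_nhdsWithin
    have e3 : ∀ᶠ x : ℝ in 𝓝[<] lam, cc x < cc lam + ε / 4 :=
      nhdsWithin_le_nhds (hc.eventually (gt_mem_nhds (by linarith)))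
    exact (e1.and e2).and e3
  obtain ⟨y, ⟨hy0, hy1⟩, hy2⟩ := h2.exists
  have hyle : y ≤ 1 := by linarith
  have hcy := H370.AS.cc_nonneg y (by linarith) hyle
  obtain ⟨δ, hδ, T0, hT0, hT⟩ := almost_iso hF hB (2 * y - 1) y (ε / 4) d (by linarith) (by linarith) (by linarith)
    (by linarith) (by positivity) hd hd1
  obtain ⟨C, hC, hZ⟩ := isoZ_le hF
  obtain ⟨C', hC', hcount⟩ := H965SI.countShort F hF
  set c : ℝ := 2 - cc y - 74 * d ^ 2 - ε / 4 - ε / 4 with hcdef
  -- the number of zeros is large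
  have hη₁ : 0 < 2 * y - 1 := by linarith
  have ev1 : ∀ᶠ T : ℝ in atTop, 8 * Real.pi * (C' + 1) ≤ Real.log T :=
    Real.tendsto_log_atTop.eventually_ge_atTop _
  have ev2 := (isLittleO_log_rpow_rpow_atTop (2 : ℝ) hη₁).bound (c := 1 / (8 * (C' + 2 * C / (ε / 4) + 1))) (by positivity)
  have ev3 := (tendsto_rpow_atTop hη₁).eventually_ge_atTop 6
  obtain ⟨T2, hT2⟩ := eventually_atTop.mp (ev1.and (ev2.and (ev3.and (eventually_ge_atTop 10))))
  obtain ⟨s, κ, hs0, hs1, hκ0, hκ1, h⟩ := zeros_pt hF (wtI F d c) (M := 2) (by positivity) (fun s hs0 hs => by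
      classical
      have hm : (1 : ℝ) ≤ mult F s := by exact_mod_cast Loc.mult_pos' hF hs hs0
      have e1 : c * (mult F s : ℝ) ≤ 2 * mult F s := by
        apply mul_le_mul_of_nonneg_right _ (by linarith)
        nlinarith [sq_nonneg d]
      unfold wtI
      split_ifs <;> linarith)
    (η₁ := 2 * y - 1) (η := η) (δ := δ) (T₀ := max T0 T2) (by linarith) (by linarith) h1 hδ (fun T hTT H hH1 hH2 => by
      refine (measure_mono ?_).trans (hT T ((le_max_left _ _).trans hTT) H hH1 hH2)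
      rintro t ⟨ht1, ht2⟩
      refine ⟨ht1, fun hcon => ?_⟩
      obtain ⟨g1, g2, g3, g4⟩ := hT2 T ((le_max_right _ _).trans hTT)
      have hT1 : 1 ≤ T := by linarith
      have hL : 0 < Real.log T := Real.log_pos (by linarith)
      have hL1 : 1 ≤ Real.log T := by
        rw [Real.le_log_iff_exp_le (by linarith)]
        linarith [Real.exp_one_lt_d9]
      rw [W_wtI hF d c (hT1.trans ht1.1)] at ht2
      have hH6 : 6 ≤ H := g3.trans hH1
      have k1 := hZ T t H d g4 hL1 ht1.1 hH6 (by linarith [ht1.1]) hd (by linarith)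
      rw [Real.rpow_two, Real.norm_of_nonneg (by positivity), Real.norm_of_nonneg (Real.rpow_nonneg (by linarith) _)] at g2
      -- lower bound for `NN`
      have htlog : Real.log T ≤ Real.log t := Real.log_le_log (by linarith) ht1.1
      have htlog2 : Real.log t ≤ 2 * Real.log T := by
        have h5 : Real.log t ≤ Real.log (T ^ 2) := Real.log_le_log (by linarith [ht1.1]) (by nlinarith [ht1.2])
        rwa [Real.log_pow, Nat.cast_ofNat] at h5
      have k2 := (hcount t (by linarith [ht1.1]) H (by linarith) (by linarith [ht1.1]) t (t + H) le_rfl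
        (by linarith) (by linarith) le_rfl).1
      rw [abs_le] at k2
      have hpi := Real.pi_pos
      have hH0 : 0 < H := by linarith
      have k3 : 4 * ((C' + 1) * H) ≤ H * Real.log t / (2 * Real.pi) := by
        rw [le_div_iff₀ (by positivity)]
        have : 8 * Real.pi * (C' + 1) ≤ Real.log t := g1.trans htlog
        nlinarith
      have k4 : (C' + 2 * C / (ε / 4) + 1) * (8 * Real.log T ^ 2) ≤ H := by
        have h6 : 8 * (C' + 2 * C / (ε / 4) + 1) * Real.log T ^ 2 ≤ T ^ (2 * y - 1) := by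
          have h7 := mul_le_mul_of_nonneg_left g2 (by positivity : 0 ≤ 8 * (C' + 2 * C / (ε / 4) + 1))
          refine h7.trans (le_of_eq ?_)
          field_simp
        calc (C' + 2 * C / (ε / 4) + 1) * (8 * Real.log T ^ 2) = 8 * (C' + 2 * C / (ε / 4) + 1) * Real.log T ^ 2 := by ring
          _ ≤ T ^ (2 * y - 1) := h6
          _ ≤ H := hH1
      have hCe : 0 ≤ 2 * C / (ε / 4) := by positivity
      have k5 : Real.log t ^ 2 ≤ 4 * Real.log T ^ 2 := by nlinarith
      have k5' : C' * Real.log t ^ 2 ≤ H := by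
        have : C' * (4 * Real.log T ^ 2) ≤ (C' + 2 * C / (ε / 4) + 1) * (8 * Real.log T ^ 2) := by
          have hLL : 0 ≤ Real.log T ^ 2 := by positivity
          nlinarith
        nlinarith
      have k6 : H ≤ (NN F t (t + H) : ℝ) := by
        have hCH : 0 ≤ C' * H := by positivity
        nlinarith [k2.1]
      have k7 : C * Real.log t ≤ ε / 4 * (NN F t (t + H) : ℝ) := by
        have h8 : C * (2 * Real.log T) ≤ ε / 4 * H := by
          have h9 : 2 * C / (ε / 4) * Real.log T ≤ H := by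
            have h10 : 2 * C / (ε / 4) * Real.log T ≤ (C' + 2 * C / (ε / 4) + 1) * (8 * Real.log T ^ 2) := by
              have h11 : Real.log T ≤ 8 * Real.log T ^ 2 := by nlinarith
              have h12 : 2 * C / (ε / 4) ≤ C' + 2 * C / (ε / 4) + 1 := by linarith
              exact mul_le_mul h12 h11 hL.le (by positivity)
            exact h10.trans k4
          have h13 := mul_le_mul_of_nonneg_left h9 (by positivity : 0 ≤ ε / 4)
          refine le_trans (le_of_eq ?_) h13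
          field_simp
        calc C * Real.log t ≤ C * (2 * Real.log T) := mul_le_mul_of_nonneg_left htlog2 hC.le
          _ ≤ ε / 4 * H := h8
          _ ≤ _ := mul_le_mul_of_nonneg_left k6 (by positivity)
      have k8 : c * (NN F t (t + H) : ℝ) =
          (2 - cc y - 74 * d ^ 2 - ε / 4) * (NN F t (t + H) : ℝ) - ε / 4 * (NN F t (t + H) : ℝ) := by
        rw [hcdef]; ring
      linarith)
  obtain ⟨S, T₁, hS, hT₁⟩ := h (ε / 4) (by positivity)
  refine ⟨s, κ, hs0, hs1, hκ0, hκ1, S, T₁, hS, fun T hTT hTS a b ha hb hab => ?_⟩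
  obtain ⟨ha1, hW⟩ := hT₁ T hTT hTS a b ha hb hab
  rw [W_wtI hF d c ha1] at hW
  have hNN : (0 : ℝ) ≤ NN F a b := Nat.cast_nonneg _
  have h5 : (2 - cc lam - 74 * d ^ 2 - ε) * (NN F a b : ℝ) ≤ (c - ε / 4) * (NN F a b : ℝ) := by
    apply mul_le_mul_of_nonneg_right _ hNN
    rw [hcdef]
    linarith
  exact ⟨ha1, by linarith⟩

/-- the isolated zeros as in the starting theorem -/
lemma NI_le_isoA {F : ℂ → ℂ} (hF : GoodL F) {a b d L : ℝ} (ha : 10 ≤ a) (hd : 0 < d) (hL : Real.log b ≤ L) :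
    NI F d a b ≤ (isoA F a b (d / L)).card := by
  classical
  unfold NI isoA
  refine Finset.card_le_card ?_
  intro s hs
  rw [Finset.mem_filter] at hs ⊢
  obtain ⟨h1, h2, h3, h4⟩ := hs
  refine ⟨h1, h2, h3, fun s' e1 e2 e3 e4 => le_trans ?_ (h4 s' e1 e2 e3 e4)⟩
  obtain ⟨g1, g2, g3, g4, g5⟩ := (mem_Zf hF (by linarith : 1 ≤ a)).mp h1
  have hl : 0 < Real.log s.im := Real.log_pos (by linarith)
  exact div_le_div_of_nonneg_left hd.le hl ((Real.log_le_log (by linarith) g4).trans hL)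

end Run7.h613.NG
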