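import Pool.Agent.Run7.h613.NG.Super
import Pool.Agent.Y763.PS.LevShort

/-!
# k-level correlations of simple critical zeros in every short interval near typical numbers
-/

set_option autoImplicit false

open Filter Topology MeasureTheory

namespace Run7.h613.NG

open H370 Pool.Agent.TH342.CV Pool.Agent.Y763.PS
open Pool.Agent.Y796.PA (AA)

/-- the exponent of the average of the truncated counts -/
noncomputable def PP (h : ℝ) : ℝ := (2 - H295Iso.c0 h) / h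

lemma PP_cont {h : ℝ} (hh : 0 < h) : ContinuousAt PP h := by
  have h1 := H295Iso.c0_cont hh
  unfold PP
  exact (continuousAt_const.sub h1).div continuousAt_id hh.ne'

section

variable {n r : ℕ} (c : Fin n → Fin r) {F0 : ℂ → ℂ} {F : Fin r → ℂ → ℂ}

open Classical in
/-- the normalised count -/
noncomputable def Mk (F0 : ℂ → ℂ) (F : Fin r → ℂ → ℂ) (τ : ℝ) (x : (Fin r → ℝ) × (Fin r → ℝ)) (a b : ℝ) : ℝ :=
  if (∀ i, 0 ≤ x.1 i) then
    ((Lev F0 (fun i => F (c i)) a (b - a) (2 * Real.pi / Real.log τ) (fun i => x.1 (c i)) (fun i => x.2 (c i))).ncard : ℝ) /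
      |∏ i, (x.2 (c i) - x.1 (c i))|
  else 0

lemma Mk_nonneg (τ : ℝ) (x : (Fin r → ℝ) × (Fin r → ℝ)) (a b : ℝ) : 0 ≤ Mk c F0 F τ x a b := by
  unfold Mk
  split_ifs
  · positivity
  · exact le_rfl

lemma Mk_super (hF0 : GoodL F0) (hF : ∀ i, GoodL (F i)) (τ : ℝ) (x : (Fin r → ℝ) × (Fin r → ℝ)) {a b d : ℝ} (hτ : 1 < τ)
    (ha : 1 ≤ a) (hab : a ≤ b) (hbd : b ≤ d) : Mk c F0 F τ x a b + Mk c F0 F τ x b d ≤ Mk c F0 F τ x a d := by
  classical
  unfold Mk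
  split_ifs with h
  · rw [← add_div]
    refine div_le_div_of_nonneg_right ?_ (abs_nonneg _)
    have hlog : 0 < Real.log τ := Real.log_pos hτ
    have hσ : 0 ≤ 2 * Real.pi / Real.log τ := by have := Real.pi_pos; positivity
    have f1 := lev_finite (F := fun i => F (c i)) hF0 (fun i => hF (c i)) (T := a) (H := b - a)
      (σ := 2 * Real.pi / Real.log τ) (α := fun i => x.1 (c i)) (β := fun i => x.2 (c i)) ha hσ (fun i => h (c i))
    have f2 := lev_finite (F := fun i => F (c i)) hF0 (fun i => hF (c i)) (T := b) (H := d - b)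
      (σ := 2 * Real.pi / Real.log τ) (α := fun i => x.1 (c i)) (β := fun i => x.2 (c i)) (ha.trans hab) hσ
      (fun i => h (c i))
    have f3 := lev_finite (F := fun i => F (c i)) hF0 (fun i => hF (c i)) (T := a) (H := d - a)
      (σ := 2 * Real.pi / Real.log τ) (α := fun i => x.1 (c i)) (β := fun i => x.2 (c i)) ha hσ (fun i => h (c i))
    have hdisj : Disjoint
        (Lev F0 (fun i => F (c i)) a (b - a) (2 * Real.pi / Real.log τ) (fun i => x.1 (c i)) (fun i => x.2 (c i)))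
        (Lev F0 (fun i => F (c i)) b (d - b) (2 * Real.pi / Real.log τ) (fun i => x.1 (c i)) (fun i => x.2 (c i))) := by
      rw [Set.disjoint_left]
      rintro p ⟨-, h2, -⟩ ⟨h3, -⟩
      linarith
    have hsub : Lev F0 (fun i => F (c i)) a (b - a) (2 * Real.pi / Real.log τ) (fun i => x.1 (c i)) (fun i => x.2 (c i)) ∪
        Lev F0 (fun i => F (c i)) b (d - b) (2 * Real.pi / Real.log τ) (fun i => x.1 (c i)) (fun i => x.2 (c i)) ⊆
        Lev F0 (fun i => F (c i)) a (d - a) (2 * Real.pi / Real.log τ) (fun i => x.1 (c i)) (fun i => x.2 (c i)) := by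
      rintro p (⟨h1, h2, h3⟩ | ⟨h1, h2, h3⟩)
      · exact ⟨h1, by linarith, h3⟩
      · exact ⟨by linarith, by linarith, h3⟩
    have hle := Set.ncard_le_ncard hsub f3
    rw [Set.ncard_union_eq hdisj f1 f2] at hle
    exact_mod_cast hle
  · simp

end

/-- the set of tuples in two scales -/
lemma lev_scale {n : ℕ} {F0 : ℂ → ℂ} {F : Fin n → ℂ → ℂ} {a H σ σ' ρ : ℝ} (hσ : σ' * ρ = σ) (α β : Fin n → ℝ) :
    Lev F0 F a H σ' (fun i => ρ * α i) (fun i => ρ * β i) = Lev F0 F a H σ α β := by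
  ext p
  simp only [Lev, Set.mem_ofPred_eq]
  have e : ∀ x : ℝ, ρ * x * σ' = x * σ := fun x => by rw [← hσ]; ring
  simp only [e]

/-- **k-level correlations near typical numbers.** -/
theorem levels_typical {n r m : ℕ} (c : Fin n → Fin r)
    (hc : ∀ j, (Finset.univ.filter (fun i => c i = j)).card ≤ m) (hm : 1 ≤ m) {η η' ε : ℝ} (hη0 : 0 < η) (hη1 : η < 1)
    (hη' : η' < η) (hε : 0 < ε) (hεr : ε < ((r : ℝ) + 1) * PP ((1 + η) / 2) - r) :
    ∃ L : ℝ, 0 < L ∧ ∀ (F0 : ℂ → ℂ) (F : Fin r → ℂ → ℂ), GoodL F0 → Alm F0 → (∀ i, GoodL (F i)) → (∀ i, Alm (F i)) →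
      ∃ s κ : ℝ, 0 < s ∧ s < 1 ∧ 0 < κ ∧ Typical s (fun T => ∀ a b : ℝ, T - T ^ (η + κ) ≤ a → b ≤ T + T ^ (η + κ) →
        T ^ η ≤ b - a → ∀ α β : Fin r → ℝ, (∀ i, 0 ≤ α i ∧ α i + L ≤ β i ∧ β i ≤ T ^ η') →
          (((r : ℝ) + 1) * PP ((1 + η) / 2) - r - ε) ^ m * ((1 + η) / 2) ^ (n + 1) *
            (∏ i, (β (c i) - α (c i))) * ((b - a) / (2 * Real.pi) * Real.log T) ≤
            ((Lev F0 (fun i => F (c i)) a (b - a) (2 * Real.pi / Real.log T) (fun i => α (c i))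
              (fun i => β (c i))).ncard : ℝ)) := by
  classical
  have hpi := Real.pi_pos
  -- the choice of `η₁`
  obtain ⟨G, hG⟩ : ∃ G : ℝ, G = (((r : ℝ) + 1) * PP ((1 + η) / 2) - r - ε) ^ m * ((1 + η) / 2) ^ (n + 1) := ⟨_, rfl⟩
  have hG0 : 0 < G := by
    rw [hG]
    have : 0 < ((r : ℝ) + 1) * PP ((1 + η) / 2) - r - ε := by linarith
    positivity
  obtain ⟨η₁, hη₁, e1, e3, e4, e5⟩ : ∃ η₁ : ℝ, η₁ < η ∧ 0 < η₁ ∧ η' < η₁ ∧
      ε / 2 < ((r : ℝ) + 1) * PP ((1 + η₁) / 2) - r ∧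
      G < (((r : ℝ) + 1) * PP ((1 + η₁) / 2) - r - ε / 2) ^ m * ((1 + η₁) / 2) ^ (n + 1) := by
    have hcl : ContinuousAt (fun x : ℝ => (1 + x) / 2) η := by fun_prop
    have hcP : ContinuousAt (fun x : ℝ => PP ((1 + x) / 2)) η :=
      ContinuousAt.comp (g := PP) (f := fun x : ℝ => (1 + x) / 2) (PP_cont (by linarith : (0 : ℝ) < (1 + η) / 2)) hcl
    have hc1 : ContinuousAt (fun x : ℝ => ((r : ℝ) + 1) * PP ((1 + x) / 2) - r) η :=
      (continuousAt_const.mul hcP).sub continuousAt_const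
    have hc2 : ContinuousAt (fun x : ℝ => (((r : ℝ) + 1) * PP ((1 + x) / 2) - r - ε / 2) ^ m * ((1 + x) / 2) ^ (n + 1)) η :=
      ((hc1.sub continuousAt_const).pow m).mul (hcl.pow (n + 1))
    have k1 : ∀ᶠ x : ℝ in 𝓝[<] η, ε / 2 < ((r : ℝ) + 1) * PP ((1 + x) / 2) - r :=
      nhdsWithin_le_nhds (hc1.eventually (lt_mem_nhds (by linarith)))
    have k2 : ∀ᶠ x : ℝ in 𝓝[<] η, G < (((r : ℝ) + 1) * PP ((1 + x) / 2) - r - ε / 2) ^ m * ((1 + x) / 2) ^ (n + 1) := by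
      refine nhdsWithin_le_nhds (hc2.eventually (lt_mem_nhds ?_))
      rw [hG]
      refine mul_lt_mul_of_pos_right ?_ (by positivity)
      exact pow_lt_pow_left₀ (by linarith) (by linarith) (by omega)
    have k3 : ∀ᶠ x : ℝ in 𝓝[<] η, x < η := self_mem_nhdsWithin
    have k4 : ∀ᶠ x : ℝ in 𝓝[<] η, 0 < x := nhdsWithin_le_nhds (lt_mem_nhds hη0)
    have k5 : ∀ᶠ x : ℝ in 𝓝[<] η, η' < x := nhdsWithin_le_nhds (lt_mem_nhds hη')
    obtain ⟨x, hx⟩ := (k1.and (k2.and (k3.and (k4.and k5)))).exists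
    exact ⟨x, hx.2.2.1, hx.2.2.2.1, hx.2.2.2.2, hx.1, hx.2.1⟩
  obtain ⟨G₁, hG₁⟩ : ∃ G₁ : ℝ, G₁ = (((r : ℝ) + 1) * PP ((1 + η₁) / 2) - r - ε / 2) ^ m * ((1 + η₁) / 2) ^ (n + 1) :=
    ⟨_, rfl⟩
  rw [← hG₁] at e5
  have hG₁0 : 0 < G₁ := hG0.trans e5
  obtain ⟨L₀, hL₀, hlev⟩ := levels_almost c hc hm e1 (hη₁.trans hη1) (half_pos hε) zero_le_one e4
  refine ⟨2 * L₀, by positivity, fun F0 F hF0 hA0 hF hA => ?_⟩
  obtain ⟨δ, hδ, T1, hT1, hvol⟩ := hlev F0 F hF0 hA0 hF hA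
  obtain ⟨s, κ, hs0, hs1, hκ, hκ1, hT⟩ := every_of_aa (X := (Fin r → ℝ) × (Fin r → ℝ)) e1 hη₁ hη1 (Mk c F0 F)
    (fun τ => {x | ∀ i, 0 ≤ x.1 i ∧ x.1 i + L₀ ≤ x.2 i ∧ x.2 i * (2 * Real.pi / Real.log τ) ≤ τ ^ η₁})
    (fun τ x a b => Mk_nonneg c τ x a b) (fun τ x a b d hτ ha hab hbd => Mk_super c hF0 hF τ x hτ ha hab hbd)
    (c := G₁ / (2 * Real.pi)) (by positivity)
    (by
      refine ⟨δ, hδ, max T1 4, fun T hTT H hH1 hH2 => (measure_mono ?_).trans (hvol T ((le_max_left _ _).trans hTT))⟩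
      rintro t ⟨⟨ht1, ht2⟩, ht3⟩
      refine ⟨ht1, ht2, fun hcon => ht3 fun x hx => ?_⟩
      have hT4 : 4 ≤ T := (le_max_right _ _).trans hTT
      have hlog : 0 < Real.log T := Real.log_pos (by linarith)
      have hx0 : ∀ i, 0 ≤ x.1 i := fun i => (hx i).1
      have hprod : 0 < ∏ i, (x.2 (c i) - x.1 (c i)) := Finset.prod_pos fun i _ => by linarith [(hx (c i)).2.1]
      have hTη : T ^ η₁ ≤ T := by
        calc T ^ η₁ ≤ T ^ (1 : ℝ) := Real.rpow_le_rpow_of_exponent_le (by linarith) (by linarith)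
          _ = T := Real.rpow_one T
      have key := hcon H hH1 hH2 x.1 x.2 fun i => ⟨(hx i).1, (hx i).2.1, by
        rw [one_mul]
        exact (hx i).2.2.trans hH1, (hx i).2.2.trans hTη⟩
      unfold Mk
      rw [if_pos hx0, abs_of_pos hprod, le_div_iff₀ hprod]
      have e6 : t + H - t = H := by ring
      rw [e6]
      refine le_trans (le_of_eq ?_) key
      have e7 : (2 - H295Iso.c0 ((1 + η₁) / 2)) / ((1 + η₁) / 2) = PP ((1 + η₁) / 2) := rfl
      rw [e7, hG₁]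
      field_simp)
  refine ⟨s, κ, hs0, hs1, hκ, ?_⟩
  -- the slack
  obtain ⟨g, hg0, hg1, hg2⟩ : ∃ g : ℝ, 0 < g ∧ g < 1 ∧ G ≤ (G₁ - (G₁ - G) / 2) * g ^ (n + 1) := by
    have hlim : ContinuousAt (fun g : ℝ => (G₁ - (G₁ - G) / 2) * g ^ (n + 1)) 1 := by fun_prop
    have k1 : ∀ᶠ g : ℝ in 𝓝[<] 1, G < (G₁ - (G₁ - G) / 2) * g ^ (n + 1) := by
      refine nhdsWithin_le_nhds (hlim.eventually (lt_mem_nhds ?_))
      simp only [one_pow, mul_one]
      linarith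
    have k2 : ∀ᶠ g : ℝ in 𝓝[<] (1 : ℝ), g < 1 := self_mem_nhdsWithin
    have k3 : ∀ᶠ g : ℝ in 𝓝[<] (1 : ℝ), 0 < g := nhdsWithin_le_nhds (lt_mem_nhds one_pos)
    obtain ⟨g, h1, h2, h3⟩ := (k1.and (k2.and k3)).exists
    exact ⟨g, h3, h2, h1.le⟩
  have ev1 : ∀ᶠ T : ℝ in atTop, 2 * Real.pi * (2 * (2 : ℝ) ^ η₁) ≤ Real.log T :=
    Real.tendsto_log_atTop.eventually_ge_atTop _
  have ev2 : ∀ᶠ T : ℝ in atTop, Real.log 2 / Real.log T ≤ 1 - g := by
    have : Tendsto (fun T : ℝ => Real.log 2 / Real.log T) atTop (𝓝 0) :=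
      Real.tendsto_log_atTop.const_div_atTop _
    exact this.eventually (eventually_le_nhds (by linarith))
  obtain ⟨T₀, hT₀⟩ := eventually_atTop.1 (ev1.and (ev2.and (eventually_ge_atTop (16 : ℝ))))
  refine (hT ((G₁ - G) / 2 / (2 * Real.pi)) (by
    have : 0 < G₁ - G := by linarith
    positivity)).mono_large T₀ ?_
  rintro T hTT ⟨τ, hτ4, hτ1, hτ2, hall⟩ a b ha hb hab α β hαβ
  obtain ⟨g1, g2, g3⟩ := hT₀ T hTT
  have hTW : 0 < T ^ (η + κ) := Real.rpow_pos_of_pos (by linarith) _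
  have hτT : τ ≤ T := by linarith
  have hT2 : T ≤ 2 * τ := by linarith
  have hτ0 : 0 < τ := by linarith
  have hlτ : 0 < Real.log τ := Real.log_pos (by linarith)
  have hlT : 0 < Real.log T := Real.log_pos (by linarith)
  have hl1 : Real.log τ ≤ Real.log T := Real.log_le_log hτ0 hτT
  have hl2 : Real.log T ≤ Real.log 2 + Real.log τ := by
    rw [← Real.log_mul (by norm_num) hτ0.ne']
    exact Real.log_le_log (by linarith) hT2
  have hl3 : Real.log T ≤ 2 * Real.log τ := by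
    have : Real.log 2 ≤ Real.log τ := Real.log_le_log (by norm_num) (by linarith)
    linarith
  obtain ⟨ρ, hρ⟩ : ∃ ρ : ℝ, ρ = Real.log τ / Real.log T := ⟨_, rfl⟩
  have hρ0 : 0 < ρ := by rw [hρ]; positivity
  have hρ1 : ρ ≤ 1 := by rw [hρ, div_le_one hlT]; exact hl1
  have hρ2 : 1 / 2 ≤ ρ := by
    rw [hρ, le_div_iff₀ hlT]
    linarith
  have hρ3 : g ≤ ρ := by
    have : 1 - Real.log 2 / Real.log T ≤ ρ := by
      rw [hρ, sub_le_iff_le_add, ← add_div, le_div_iff₀ hlT]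
      linarith
    linarith
  have hab0 : 0 < b - a := lt_of_lt_of_le (Real.rpow_pos_of_pos (by linarith) _) hab
  have hmem : ((fun i => ρ * α i, fun i => ρ * β i) : (Fin r → ℝ) × (Fin r → ℝ)) ∈
      {x : (Fin r → ℝ) × (Fin r → ℝ) | ∀ i, 0 ≤ x.1 i ∧ x.1 i + L₀ ≤ x.2 i ∧
        x.2 i * (2 * Real.pi / Real.log τ) ≤ τ ^ η₁} := by
    intro i
    obtain ⟨k1, k2, k3⟩ := hαβ i
    refine ⟨mul_nonneg hρ0.le k1, ?_, ?_⟩
    · show ρ * α i + L₀ ≤ ρ * β i
      nlinarith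
    · show ρ * β i * (2 * Real.pi / Real.log τ) ≤ τ ^ η₁
      have k4 : ρ * β i ≤ T ^ η₁ := by
        have hβ0 : 0 ≤ β i := by linarith
        calc ρ * β i ≤ 1 * β i := mul_le_mul_of_nonneg_right hρ1 hβ0
          _ = β i := one_mul _
          _ ≤ T ^ η' := k3
          _ ≤ T ^ η₁ := Real.rpow_le_rpow_of_exponent_le (by linarith) e3.le
      have k5 : T ^ η₁ ≤ 2 ^ η₁ * τ ^ η₁ := by
        rw [← Real.mul_rpow (by norm_num) hτ0.le]
        exact Real.rpow_le_rpow (by linarith) hT2 e1.le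
      have k6 : 0 < τ ^ η₁ := Real.rpow_pos_of_pos hτ0 _
      have k7 : 2 * Real.pi * 2 ^ η₁ ≤ Real.log τ := by nlinarith
      rw [mul_div_assoc', div_le_iff₀ hlτ]
      calc ρ * β i * (2 * Real.pi) ≤ 2 ^ η₁ * τ ^ η₁ * (2 * Real.pi) :=
            mul_le_mul_of_nonneg_right (k4.trans k5) (by positivity)
        _ = 2 * Real.pi * 2 ^ η₁ * τ ^ η₁ := by ring
        _ ≤ Real.log τ * τ ^ η₁ := mul_le_mul_of_nonneg_right k7 k6.le
        _ = τ ^ η₁ * Real.log τ := by ring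
  have key := hall _ hmem a b ha hb hab
  have hx0 : ∀ i, 0 ≤ ρ * α i := fun i => mul_nonneg hρ0.le (hαβ i).1
  have hprodW : ∏ i, (ρ * β (c i) - ρ * α (c i)) = ρ ^ n * ∏ i, (β (c i) - α (c i)) := by
    have : ∀ i, ρ * β (c i) - ρ * α (c i) = ρ * (β (c i) - α (c i)) := fun i => by ring
    simp only [this, Finset.prod_mul_distrib, Finset.prod_const, Finset.card_univ, Fintype.card_fin]
  have hprod0 : 0 < ∏ i, (β (c i) - α (c i)) := Finset.prod_pos fun i _ => by linarith [(hαβ (c i)).2.1]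
  have hW0 : 0 < ρ ^ n * ∏ i, (β (c i) - α (c i)) := by positivity
  unfold Mk at key
  rw [if_pos hx0] at key
  simp only at key
  rw [hprodW, abs_of_pos hW0, le_div_iff₀ hW0, lev_scale (σ := 2 * Real.pi / Real.log T) (by
    rw [hρ]; field_simp)] at key
  refine le_trans ?_ key
  rw [← hG]
  have k1 : G * (∏ i, (β (c i) - α (c i))) * ((b - a) / (2 * Real.pi) * Real.log T) =
      (∏ i, (β (c i) - α (c i))) * ((b - a) * Real.log T / (2 * Real.pi)) * G := by ring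
  have k2 : (G₁ / (2 * Real.pi) - (G₁ - G) / 2 / (2 * Real.pi)) * ((b - a) * Real.log τ) *
      (ρ ^ n * ∏ i, (β (c i) - α (c i))) =
      (∏ i, (β (c i) - α (c i))) * ((b - a) * Real.log T / (2 * Real.pi)) * ((G₁ - (G₁ - G) / 2) * ρ ^ (n + 1)) := by
    have : Real.log τ = ρ * Real.log T := by rw [hρ]; field_simp
    rw [this, pow_succ]
    field_simp
  rw [k1, k2]
  refine mul_le_mul_of_nonneg_left (hg2.trans ?_) (by positivity)
  refine mul_le_mul_of_nonneg_left ?_ (by linarith)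
  exact pow_le_pow_left₀ hg0.le hρ3 _

end Run7.h613.NG
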