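import Pool.Agent.Run7.h613.NG.Core
import Pool.Agent.Y796.PA.Main

/-!
# From almost all short intervals to every short interval near typical numbers

`M τ x a b` is a nonnegative statistic of the interval `(a, b]`, superadditive in the interval, which depends on a scale `τ`
and on a parameter `x` in a set `A τ`. If in almost all intervals `(t, t + H]`, `t ∈ [T, 2T]`, with `H ≥ T ^ η₁` it is at least
`c H log T` for all the parameters at once, then for typical real numbers `T` it is at least `(c - ε) (b - a) log τ` in EVERY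
interval `(a, b]` of length at least `T ^ η` in a window of length `T ^ (η + κ)` around `T`, `τ` being a power of two with
`τ ≤ T < 2 τ`.
-/

set_option autoImplicit false

open Filter Topology MeasureTheory

namespace Run7.h613.NG

open Pool.Agent.N251.LF.SIP (short_pt)
open Pool.Agent.Y796.PA (AA)

variable {X : Type*}

/-- the deficiency -/
noncomputable def Def (M : ℝ → X → ℝ → ℝ → ℝ) (A : ℝ → Set X) (c τ a b : ℝ) : ℝ :=
  sSup (insert 0 {y : ℝ | ∃ x ∈ A τ, y = c * ((b - a) * Real.log τ) - M τ x a b})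

lemma Def_bdd {M : ℝ → X → ℝ → ℝ → ℝ} {A : ℝ → Set X} {c τ a b : ℝ} (hM : ∀ x, 0 ≤ M τ x a b) :
    BddAbove (insert 0 {y : ℝ | ∃ x ∈ A τ, y = c * ((b - a) * Real.log τ) - M τ x a b}) := by
  refine ⟨max 0 (c * ((b - a) * Real.log τ)), ?_⟩
  rintro y (rfl | ⟨x, _, rfl⟩)
  · exact le_max_left _ _
  · exact le_max_of_le_right (by linarith [hM x])

lemma le_Def {M : ℝ → X → ℝ → ℝ → ℝ} {A : ℝ → Set X} {c τ a b : ℝ} (hM : ∀ x, 0 ≤ M τ x a b) {x : X} (hx : x ∈ A τ) :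
    c * ((b - a) * Real.log τ) - M τ x a b ≤ Def M A c τ a b :=
  le_csSup (Def_bdd hM) (Or.inr ⟨x, hx, rfl⟩)

lemma Def_nonneg {M : ℝ → X → ℝ → ℝ → ℝ} {A : ℝ → Set X} {c τ a b : ℝ} (hM : ∀ x, 0 ≤ M τ x a b) :
    0 ≤ Def M A c τ a b :=
  le_csSup (Def_bdd hM) (Or.inl rfl)

lemma Def_le {M : ℝ → X → ℝ → ℝ → ℝ} {A : ℝ → Set X} {c τ a b B : ℝ} (hB : 0 ≤ B)
    (h : ∀ x ∈ A τ, c * ((b - a) * Real.log τ) - M τ x a b ≤ B) : Def M A c τ a b ≤ B := by
  refine csSup_le ⟨0, Or.inl rfl⟩ ?_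
  rintro y (rfl | ⟨x, hx, rfl⟩)
  · exact hB
  · exact h x hx

lemma Def_pos {M : ℝ → X → ℝ → ℝ → ℝ} {A : ℝ → Set X} {c τ a b : ℝ} (h : 0 < Def M A c τ a b) :
    ∃ x ∈ A τ, M τ x a b < c * ((b - a) * Real.log τ) := by
  by_contra hcon
  push Not at hcon
  exact absurd (Def_le le_rfl fun x hx => by linarith [hcon x hx]) (not_le.2 h)

/-- **From almost all to every.** -/
theorem every_of_aa {η₁ η : ℝ} (h0 : 0 < η₁) (h1 : η₁ < η) (h2 : η < 1) (M : ℝ → X → ℝ → ℝ → ℝ) (A : ℝ → Set X)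
    (hM : ∀ τ x a b, 0 ≤ M τ x a b)
    (hsup : ∀ τ x a b c, 1 < τ → 1 ≤ a → a ≤ b → b ≤ c → M τ x a b + M τ x b c ≤ M τ x a c) {c : ℝ} (hc : 0 ≤ c)
    (haa : AA η₁ (fun T H t => ∀ x ∈ A T, c * (H * Real.log T) ≤ M T x t (t + H))) :
    ∃ s κ : ℝ, 0 < s ∧ s < 1 ∧ 0 < κ ∧ η + κ < 1 ∧ ∀ ε : ℝ, 0 < ε → Typical s (fun T =>
      ∃ τ : ℝ, 4 ≤ τ ∧ τ ≤ T - T ^ (η + κ) ∧ T + T ^ (η + κ) ≤ 2 * τ ∧ ∀ x ∈ A τ, ∀ a b : ℝ,
        T - T ^ (η + κ) ≤ a → b ≤ T + T ^ (η + κ) → T ^ η ≤ b - a →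
          (c - ε) * ((b - a) * Real.log τ) ≤ M τ x a b) := by
  obtain ⟨δ, hδ, T₀, hT₀⟩ := haa
  have hη0 : 0 < η := h0.trans h1
  set κ : ℝ := min δ (1 - η) / 2 with hκ
  have hmin : 0 < min δ (1 - η) := lt_min hδ (by linarith)
  have hκ0 : 0 < κ := by positivity
  have hκ1 : κ < δ := by
    have := min_le_left δ (1 - η)
    linarith
  have hκ2 : κ < 1 - η := by
    have := min_le_right δ (1 - η)
    linarith
  set s₀ : ℝ := max (max (η + κ) (1 - (η + δ - (η + κ)))) 0 with hs₀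
  have hs01 : s₀ < 1 := max_lt (max_lt (by linarith) (by linarith)) one_pos
  have hs00 : 0 < s₀ := lt_of_lt_of_le (by linarith : 0 < η + κ) ((le_max_left _ _).trans (le_max_left _ _))
  refine ⟨s₀, κ, hs00, hs01, hκ0, by linarith, fun ε hε => ?_⟩
  -- large scales
  obtain ⟨i₀, hi₀⟩ : ∃ i₀ : ℕ, ∀ i : ℕ, i₀ ≤ i → T₀ ≤ (2 : ℝ) ^ i ∧ ((2 : ℝ) ^ i) ^ η₁ ≤ (2 : ℝ) ^ i / 8 ∧ 2 ≤ i := by
    have hlim : Tendsto (fun i : ℕ => (2 : ℝ) ^ i) atTop atTop := tendsto_pow_atTop_atTop_of_one_lt (by norm_num)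
    have e1 := hlim.eventually_ge_atTop T₀
    have e2 := ((tendsto_rpow_atTop (show (0 : ℝ) < 1 - η₁ by linarith)).comp hlim).eventually_ge_atTop 8
    obtain ⟨i₀, hi₀⟩ := (e1.and (e2.and (eventually_ge_atTop 2))).exists_forall_of_atTop
    refine ⟨i₀, fun i hi => ?_⟩
    obtain ⟨g1, g2, g3⟩ := hi₀ i hi
    refine ⟨g1, ?_, g3⟩
    have hP0 : (0 : ℝ) < 2 ^ i := by positivity
    have g4 : (8 : ℝ) ≤ ((2 : ℝ) ^ i) ^ (1 - η₁) := g2
    have g5 : ((2 : ℝ) ^ i) ^ (1 - η₁) * ((2 : ℝ) ^ i) ^ η₁ = 2 ^ i := by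
      rw [← Real.rpow_add hP0]
      simp
    have g6 := mul_le_mul_of_nonneg_right g4 (Real.rpow_nonneg hP0.le η₁)
    rw [g5] at g6
    linarith
  obtain ⟨S, T₁, hS, hT₁⟩ := short_pt (K := c) (δ := δ) (η₁ := η₁) (η := η) (θ := η + κ) hc h0 h1 (by linarith)
    (by linarith) (fun i a b => Def M A c (2 ^ i) a b) (fun i => Real.log (2 ^ i)) i₀
    (fun i => Real.log_nonneg (one_le_pow₀ (by norm_num)))
    (fun i hi a b d ha hab hbd _ => by
      have h2i : (2 : ℝ) ^ 2 ≤ 2 ^ i := pow_le_pow_right₀ (by norm_num) (hi₀ i hi).2.2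
      refine Def_le (add_nonneg (Def_nonneg (hM _ · a b)) (Def_nonneg (hM _ · b d))) fun x hx => ?_
      have e1 := le_Def (c := c) (hM _ · a b) hx
      have e2 := le_Def (c := c) (hM _ · b d) hx
      have e3 := hsup (2 ^ i) x a b d (by linarith) (by linarith) hab hbd
      have e4 : c * ((d - a) * Real.log (2 ^ i)) = c * ((b - a) * Real.log (2 ^ i)) + c * ((d - b) * Real.log (2 ^ i)) := by
        ring
      linarith)
    (fun i hi a b ha hab hb => by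
      have hl : 0 ≤ Real.log ((2 : ℝ) ^ i) := Real.log_nonneg (one_le_pow₀ (by norm_num))
      refine Def_le (by
        have : 0 ≤ b - a + 1 := by linarith
        positivity) fun x hx => ?_
      have e1 := hM (2 ^ i) x a b
      have e2 : c * Real.log (2 ^ i) * (b - a + 1) = c * ((b - a) * Real.log (2 ^ i)) + c * Real.log (2 ^ i) := by ring
      have e3 : 0 ≤ c * Real.log ((2 : ℝ) ^ i) := mul_nonneg hc hl
      linarith)
    (fun i hi => by
      obtain ⟨g1, g2, -⟩ := hi₀ i hi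
      refine (measure_mono ?_).trans (hT₀ (2 ^ i) g1 _ le_rfl g2)
      rintro t ⟨ht1, ht2, ht3⟩
      refine ⟨⟨ht1, ?_⟩, fun hcon => ?_⟩
      · rw [pow_succ] at ht2
        linarith
      · obtain ⟨x, hx, hlt⟩ := Def_pos ht3
        have e1 := hcon x hx
        have e2 : t + ((2 : ℝ) ^ i) ^ η₁ - t = ((2 : ℝ) ^ i) ^ η₁ := by ring
        rw [e2] at hlt
        linarith)
    hε
  refine ⟨S, T₁, hS, fun T hT hTS => ?_⟩
  obtain ⟨i, hi, hlow, hhigh, hD⟩ := hT₁ T hT hTS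
  have h2i : (2 : ℝ) ^ 2 ≤ 2 ^ i := pow_le_pow_right₀ (by norm_num) (hi₀ i hi).2.2
  refine ⟨2 ^ i, by linarith, hlow, by rw [pow_succ] at hhigh; linarith, fun x hx a b ha hb hab => ?_⟩
  have e1 := le_Def (c := c) (hM (2 ^ i) · a b) hx
  have e2 := hD a b ha hb hab
  have e3 : ε * Real.log (2 ^ i) * (b - a) = ε * ((b - a) * Real.log (2 ^ i)) := by ring
  linarith

end Run7.h613.NG
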